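import Mathlib

set_option autoImplicit false

open MeasureTheory
open scoped ENNReal NNReal InnerProductSpace

namespace Pool.Agent.FNO

/-- The open unit cube `Ω = (0,1)^d`. -/
def cube (d : ℕ) : Set (Fin d → ℝ) := Set.pi Set.univ fun _ => Set.Ioo (0 : ℝ) 1

/-- Lebesgue measure on the cube `Ω`. -/
noncomputable abbrev cubeMeasure (d : ℕ) : Measure (Fin d → ℝ) := volume.restrict (cube d)

/-- The Hilbert space `L²(Ω)` (this is both `𝒰` and `𝒱`). -/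
abbrev L2 (d : ℕ) : Type := Lp ℝ 2 (cubeMeasure d)

/-- `L²(Ω)` carries its Borel σ-algebra. -/
noncomputable instance instMeasurableSpaceL2 (d : ℕ) : MeasurableSpace (L2 d) := borel _

instance instBorelSpaceL2 (d : ℕ) : BorelSpace (L2 d) := ⟨rfl⟩

/-- The `k`-th Fourier coefficient on the periodised cube, `(𝓕 v)(k) = ∫_Ω v(y) e^{-2πi k·y} dy`. -/
noncomputable def fourierCoeffCube {d : ℕ} (v : (Fin d → ℝ) → ℝ) (k : Fin d → ℤ) : ℂ :=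
  ∫ y, (v y : ℂ) * Complex.exp (-(2 * Real.pi * Complex.I * ∑ i, (k i : ℂ) * (y i : ℂ)))
    ∂(cubeMeasure d)

/-- The frequencies `k ∈ ℤ^d` with `‖k‖_∞ < κ`. -/
noncomputable def freqBox (d κ : ℕ) : Finset (Fin d → ℤ) :=
  Fintype.piFinset fun _ => Finset.Ioo (-(κ : ℤ)) (κ : ℤ)

/-- The parameters `θ` of a ReLU Fourier neural operator on `(0,1)^d` with channels indexed by `ι`:
lifting `R(s, x) = Ru s + Rx x + r`, read-out `Q`, and for each layer a matrix `W`, a bias `b` and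
Fourier multipliers `P(k)` with `P(-k) = conj P(k)`, where `P(k) = 0` unless `‖k‖_∞ < κ`.
Layer number `ℓ + 1` (`ℓ < L`) uses `W ℓ`, `b ℓ`, `P ℓ`. -/
structure Params (d : ℕ) (ι : Type) where
  /-- depth -/
  L : ℕ
  /-- Fourier cutoff -/
  κ : ℕ
  /-- lifting, coefficient of `u(x)` -/
  Ru : ι → ℝ
  /-- lifting, coefficients of the position `x` -/
  Rx : ι → Fin d → ℝ
  /-- lifting, constant term -/
  r : ι → ℝ
  /-- linear part of the read-out -/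
  Q : ι → ℝ
  /-- constant part of the read-out -/
  q : ℝ
  /-- local weights -/
  W : ℕ → ι → ι → ℝ
  /-- biases -/
  b : ℕ → ι → ℝ
  /-- Fourier multipliers -/
  P : ℕ → (Fin d → ℤ) → ι → ι → ℂ
  P_supp : ∀ l k, k ∉ freqBox d κ → P l k = 0
  P_conj : ∀ l k c c', P l (-k) c c' = (starRingEnd ℂ) (P l k c c')

/-- The hidden states `v_ℓ(x)` of the Fourier neural operator with parameters `θ` on the input
function `u`: `v_0(x) = R(u(x), x)` and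
`v_{ℓ+1}(x) = ReLU(W v_ℓ(x) + b + 𝓕⁻¹(P 𝓕 v_ℓ)(x))` (the last term is real because
`P(-k) = conj P(k)`). -/
noncomputable def hidden {d : ℕ} {ι : Type} [Fintype ι] (θ : Params d ι) (u : (Fin d → ℝ) → ℝ) :
    ℕ → (Fin d → ℝ) → ι → ℝ
  | 0 => fun x c => θ.Ru c * u x + ∑ i, θ.Rx c i * x i + θ.r c
  | l + 1 => fun x c =>
      max 0 (∑ c', θ.W l c c' * hidden θ u l x c' + θ.b l c +
        (∑ k ∈ freqBox d θ.κ, (∑ c', θ.P l k c c' * fourierCoeffCube (fun y => hidden θ u l y c') k) *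
          Complex.exp (2 * Real.pi * Complex.I * ∑ i, (k i : ℂ) * (x i : ℂ))).re)

/-- The output function `Ψ_θ(u)(x) = Q(v_L(x))`. -/
noncomputable def output {d : ℕ} {ι : Type} [Fintype ι] (θ : Params d ι) (u : (Fin d → ℝ) → ℝ)
    (x : Fin d → ℝ) : ℝ :=
  ∑ c, θ.Q c * hidden θ u θ.L x c + θ.q

/-- Every coordinate of `θ` is bounded in absolute value by `B`. -/
structure Params.Bounded {d : ℕ} {ι : Type} (θ : Params d ι) (B : ℝ) : Prop where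
  Ru : ∀ c, |θ.Ru c| ≤ B
  Rx : ∀ c i, |θ.Rx c i| ≤ B
  r : ∀ c, |θ.r c| ≤ B
  Q : ∀ c, |θ.Q c| ≤ B
  q : |θ.q| ≤ B
  W : ∀ l < θ.L, ∀ c c', |θ.W l c c'| ≤ B
  b : ∀ l < θ.L, ∀ c, |θ.b l c| ≤ B
  P_re : ∀ l < θ.L, ∀ k c c', |(θ.P l k c c').re| ≤ B
  P_im : ∀ l < θ.L, ∀ k c c', |(θ.P l k c c').im| ≤ B

/-- The class `𝒩_m` of the operators `Ψ : L²(Ω) → L²(Ω)` that are realised by a ReLU Fourier neural
operator with positive depth `L`, channel width `d_c` and cutoff `κ` such that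
`max(κ^d, d_c, L) ≤ m`, all of whose parameters are at most `e^m` in absolute value. -/
def NN (d m : ℕ) : Set (L2 d → L2 d) :=
  {Ψ | ∃ (dc : ℕ) (θ : Params d (Fin dc)), 0 < dc ∧ 0 < θ.L ∧ 0 < θ.κ ∧
    dc ≤ m ∧ θ.L ≤ m ∧ θ.κ ^ d ≤ m ∧ θ.Bounded (Real.exp m) ∧
    ∀ u : L2 d, (Ψ u : (Fin d → ℝ) → ℝ) =ᵐ[cubeMeasure d] output θ u}

/-- `‖f‖_{C(K; L²(Ω))} = sup_{u ∈ K} ‖f u‖`, with values in `[0, ∞]`. -/
noncomputable def supNorm {d : ℕ} (K : Set (L2 d)) (f : L2 d → L2 d) : ℝ≥0∞ :=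
  ⨆ u ∈ K, ‖f u‖ₑ

/-- The approximation error `e(f, m) = inf_{Ψ ∈ 𝒩_m} ‖f - Ψ‖_{C(K; L²(Ω))}`. -/
noncomputable def approxErr {d : ℕ} (K : Set (L2 d)) (f : L2 d → L2 d) (m : ℕ) : ℝ≥0∞ :=
  ⨅ Ψ ∈ NN d m, supNorm K (f - Ψ)

/-- `Γ^α(f) = max(‖f‖_{C(K)}, sup_{m ≥ 1} m^α e(f, m))`. -/
noncomputable def Gam {d : ℕ} (K : Set (L2 d)) (α : ℝ) (f : L2 d → L2 d) : ℝ≥0∞ :=
  max (supNorm K f) (⨆ (m : ℕ) (_ : 1 ≤ m), (m : ℝ≥0∞) ^ α * approxErr K f m)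

/-- The target class `K^α(K)`: the maps `G ∈ C(K; L²(Ω))` with
`inf {t > 0 : Γ^α(t⁻¹ G) ≤ 1} ≤ 1`. An element of `C(K; L²(Ω))` is represented by a map on all of
`L²(Ω)` that is continuous on `K`; only its values on `K` matter. -/
def targetClass {d : ℕ} (K : Set (L2 d)) (α : ℝ) : Set (L2 d → L2 d) :=
  {G | ContinuousOn G K ∧
    (⨅ (t : ℝ) (_ : 0 < t) (_ : Gam K α (t⁻¹ • G) ≤ 1), ENNReal.ofReal t) ≤ 1}

/-- The sampling widths `s_n(𝒦)_X`, `X = L²_ϱ(L²(Ω); L²(Ω))`: the infimum over all points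
`p_1, …, p_n ∈ K` and all maps `D : L²(Ω)^n → X` of
`sup_{f ∈ 𝒦} ‖f - D(f(p_1), …, f(p_n))‖_X`. -/
noncomputable def samplingWidth {d : ℕ} (K : Set (L2 d)) (ρ : Measure (L2 d))
    (F : Set (L2 d → L2 d)) (n : ℕ) : ℝ≥0∞ :=
  ⨅ (p : Fin n → K) (D : (Fin n → L2 d) → Lp (L2 d) 2 ρ),
    ⨆ f ∈ F, eLpNorm (fun u => f u - D (fun i => f (p i)) u) 2 ρ

/-- The optimal sampling exponent `β^⋆`: the supremum of those `β ≥ 0` for which `n^β s_n` stays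
bounded over `n ∈ ℕ`. -/
noncomputable def betaStar {d : ℕ} (K : Set (L2 d)) (ρ : Measure (L2 d))
    (F : Set (L2 d → L2 d)) : ℝ≥0∞ :=
  ⨆ (β : ℝ≥0) (_ : ∃ C : ℝ≥0, ∀ n : ℕ, (n : ℝ≥0∞) ^ (β : ℝ) * samplingWidth K ρ F n ≤ C),
    (β : ℝ≥0∞)

/-- The standing assumptions on `(K, ϱ)`: `K ⊆ L²(Ω)` is compact and convex and lies in no
finite-dimensional subspace, `ϱ` is a Borel probability measure supported in `K`, and its
covariance operator `C`, given by `⟨C v, v⟩ = ∫ ⟨v, u - 𝔼 u⟩² dϱ(u)`, is strictly positive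
definite. -/
structure Admissible {d : ℕ} (K : Set (L2 d)) (ρ : Measure (L2 d)) : Prop where
  compact : IsCompact K
  convex : Convex ℝ K
  infinite_dim : ∀ S : Submodule ℝ (L2 d), FiniteDimensional ℝ S → ¬ K ⊆ S
  prob : IsProbabilityMeasure ρ
  supp : ρ Kᶜ = 0
  cov_pos : ∀ v : L2 d, v ≠ 0 → 0 < ∫ u, (⟪v, u⟫_ℝ - ∫ w, ⟪v, w⟫_ℝ ∂ρ) ^ 2 ∂ρ

/-- The mean `∫_Ω u` of `u ∈ L²(Ω)`. -/
noncomputable def mean {d : ℕ} (u : L2 d) : ℝ := ∫ x, u x ∂(cubeMeasure d)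

/-- The law of the mean `∫_Ω u` under `ϱ` has bounded density:
`ϱ{u : |∫_Ω u - a| ≤ r} ≤ C r` for all `a` and `r > 0`. -/
def MeanLawBounded {d : ℕ} (ρ : Measure (L2 d)) : Prop :=
  ∃ C : ℝ, ∀ a r : ℝ, 0 < r → ρ {u | |mean u - a| ≤ r} ≤ ENNReal.ofReal (C * r)

end Pool.Agent.FNO
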