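import Pool.Agent.FNO.Lower2

set_option autoImplicit false

open MeasureTheory
open scoped ENNReal NNReal InnerProductSpace

namespace Pool.Agent.FNO

instance instFactTwo : Fact ((2 : ℝ≥0∞) ≠ ∞) := ⟨by norm_num⟩

instance instSecondCountableL2 (d : ℕ) : SecondCountableTopology (L2 d) := by
  infer_instance

/-- the generating sequence -/
noncomputable def gen (d : ℕ) : ℕ → L2 d
  | 0 => one d
  | j + 1 => ((1 / 2 : ℝ) ^ j * (1 + ‖TopologicalSpace.denseSeq (L2 d) j‖)⁻¹) •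
      TopologicalSpace.denseSeq (L2 d) j

lemma norm_gen_le (d j : ℕ) : ‖gen d j‖ ≤ 2 * (1 / 2 : ℝ) ^ j := by
  rcases j with _ | j
  · simp [gen, norm_one]
  · rw [gen, norm_smul, norm_mul, Real.norm_of_nonneg (by positivity : (0 : ℝ) ≤ (1 / 2 : ℝ) ^ j),
      Real.norm_of_nonneg (by positivity :
        (0 : ℝ) ≤ (1 + ‖TopologicalSpace.denseSeq (L2 d) j‖)⁻¹), pow_succ, mul_assoc]
    have h1 : (1 + ‖TopologicalSpace.denseSeq (L2 d) j‖)⁻¹ *
        ‖TopologicalSpace.denseSeq (L2 d) j‖ ≤ 1 := by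
      rw [inv_mul_le_iff₀ (by positivity)]
      linarith
    calc (1 / 2 : ℝ) ^ j * _ ≤ (1 / 2 : ℝ) ^ j * 1 := mul_le_mul_of_nonneg_left h1 (by positivity)
      _ = _ := by ring

/-- the parametrisation of `K` -/
noncomputable def par (d : ℕ) (ξ : ℕ → ℝ) : L2 d := ∑' j, ξ j • gen d j

/-- the cube of parameters -/
def box : Set (ℕ → ℝ) := Set.pi Set.univ fun _ => Set.Icc (-1 : ℝ) 1

lemma box_abs {ξ : ℕ → ℝ} (hξ : ξ ∈ box) (j : ℕ) : |ξ j| ≤ 1 :=
  abs_le.2 (hξ j (Set.mem_univ _))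

lemma norm_term_le {d : ℕ} {ξ : ℕ → ℝ} (hξ : ξ ∈ box) (j : ℕ) :
    ‖ξ j • gen d j‖ ≤ 2 * (1 / 2 : ℝ) ^ j := by
  rw [norm_smul, Real.norm_eq_abs]
  calc |ξ j| * ‖gen d j‖ ≤ 1 * ‖gen d j‖ := mul_le_mul_of_nonneg_right (box_abs hξ j) (norm_nonneg _)
    _ ≤ _ := by rw [one_mul]; exact norm_gen_le d j

lemma summable_bound : Summable fun j : ℕ => 2 * (1 / 2 : ℝ) ^ j :=
  summable_geometric_two.mul_left 2

lemma summable_term {d : ℕ} {ξ : ℕ → ℝ} (hξ : ξ ∈ box) : Summable fun j => ξ j • gen d j :=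
  Summable.of_norm_bounded summable_bound (norm_term_le hξ)

/-- the compact convex set -/
def KK (d : ℕ) : Set (L2 d) := par d '' box

lemma isCompact_KK (d : ℕ) : IsCompact (KK d) := by
  refine (isCompact_univ_pi fun _ => isCompact_Icc).image_of_continuousOn ?_
  refine continuousOn_tsum (u := fun j : ℕ => 2 * (1 / 2 : ℝ) ^ j) (fun j => ?_) summable_bound
    fun j ξ hξ => norm_term_le hξ j
  exact ((continuous_apply j).smul continuous_const).continuousOn

lemma convex_KK (d : ℕ) : Convex ℝ (KK d) := by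
  rintro _ ⟨ξ, hξ, rfl⟩ _ ⟨ζ, hζ, rfl⟩ a b ha hb hab
  refine ⟨a • ξ + b • ζ, ?_, ?_⟩
  · exact (convex_pi fun _ _ => convex_Icc _ _) hξ hζ ha hb hab
  · rw [par, par, par, ← (summable_term hξ).tsum_const_smul, ← (summable_term hζ).tsum_const_smul,
      ← ((summable_term hξ).const_smul a).tsum_add ((summable_term hζ).const_smul b)]
    refine tsum_congr fun j => ?_
    simp only [Pi.add_apply, Pi.smul_apply, smul_eq_mul, add_smul, mul_smul]

/-- shifted generating sequence starting with `0` -/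
noncomputable def yy (d : ℕ) : ℕ → L2 d
  | 0 => 0
  | j + 1 => gen d (j + 1)

lemma mem_KK {d : ℕ} (j : ℕ) {s : ℝ} (hs : s ∈ Set.Icc (-1 : ℝ) 1) :
    s • one d + yy d j ∈ KK d := by
  rcases j with _ | j
  · refine ⟨Pi.single 0 s, ?_, ?_⟩
    · intro i _
      rcases eq_or_ne i 0 with rfl | hi
      · simpa using hs
      · rw [Pi.single_eq_of_ne hi]; simp
    · rw [par, tsum_eq_single 0]
      · simp [gen, yy]
      · intro i hi
        rw [Pi.single_eq_of_ne hi, zero_smul]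
  · refine ⟨Function.update (Pi.single 0 s) (j + 1) 1, ?_, ?_⟩
    · intro i _
      rcases eq_or_ne i (j + 1) with rfl | hi
      · simp
      · rw [Function.update_of_ne hi]
        rcases eq_or_ne i 0 with rfl | hi
        · simpa using hs
        · rw [Pi.single_eq_of_ne hi]; simp
    · rw [par, tsum_eq_sum (s := {0, j + 1})]
      · rw [Finset.sum_pair (by omega)]
        simp [gen, yy]
      · intro i hi
        simp only [Finset.mem_insert, Finset.mem_singleton, not_or] at hi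
        rw [Function.update_of_ne hi.2, Pi.single_eq_of_ne hi.1, zero_smul]

lemma eq_zero_of_inner_gen {d : ℕ} (v : L2 d) (h : ∀ j, ⟪v, gen d (j + 1)⟫_ℝ = 0) : v = 0 := by
  have h1 : ∀ j, ⟪v, TopologicalSpace.denseSeq (L2 d) j⟫_ℝ = 0 := by
    intro j
    have h2 := h j
    rw [gen, inner_smul_right] at h2
    have h3 : (1 / 2 : ℝ) ^ j * (1 + ‖TopologicalSpace.denseSeq (L2 d) j‖)⁻¹ ≠ 0 := by positivity
    exact (mul_eq_zero.1 h2).resolve_left h3
  have h2 : ∀ w, ⟪v, w⟫_ℝ = 0 := by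
    intro w
    have hcl : IsClosed {w : L2 d | ⟪v, w⟫_ℝ = 0} :=
      isClosed_eq (continuous_const.inner continuous_id) continuous_const
    have hsub : Set.range (TopologicalSpace.denseSeq (L2 d)) ⊆ {w : L2 d | ⟪v, w⟫_ℝ = 0} := by
      rintro _ ⟨j, rfl⟩
      exact h1 j
    have h3 := (TopologicalSpace.denseRange_denseSeq (L2 d)).closure_range
    have h4 := hcl.closure_subset_iff.2 hsub
    rw [h3] at h4
    exact h4 (Set.mem_univ w)
  exact inner_self_eq_zero.1 (h2 v)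

end Pool.Agent.FNO
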