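import Pool.Agent.FNO.Example

set_option autoImplicit false

open MeasureTheory
open scoped ENNReal NNReal InnerProductSpace

namespace Pool.Agent.FNO

/-- disjoint slabs -/
def slab {d : ℕ} (i0 : Fin d) (n : ℕ) : Set (Fin d → ℝ) :=
  {x | x i0 ∈ Set.Ioo (1 / ((n : ℝ) + 2)) (1 / ((n : ℝ) + 1))}

lemma isOpen_slab {d : ℕ} (i0 : Fin d) (n : ℕ) : IsOpen (slab i0 n) :=
  isOpen_Ioo.preimage (continuous_apply i0)

lemma isOpen_cube (d : ℕ) : IsOpen (cube d) :=
  isOpen_set_pi Set.finite_univ fun _ _ => isOpen_Ioo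

lemma slab_disjoint {d : ℕ} (i0 : Fin d) {m n : ℕ} (h : m < n) : slab i0 m ∩ slab i0 n = ∅ := by
  rw [Set.eq_empty_iff_forall_notMem]
  rintro x ⟨⟨h1, _⟩, ⟨_, h2⟩⟩
  have h3 : (m : ℝ) + 1 ≤ n := by exact_mod_cast h
  have h4 : 1 / ((n : ℝ) + 1) ≤ 1 / ((m : ℝ) + 2) :=
    one_div_le_one_div_of_le (by positivity) (by linarith)
  linarith

lemma slab_pos {d : ℕ} (i0 : Fin d) (n : ℕ) : 0 < (cubeMeasure d).real (slab i0 n) := by
  have h1 : 0 < volume (slab i0 n ∩ cube d) := by
    refine ((isOpen_slab i0 n).inter (isOpen_cube d)).measure_pos volume ?_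
    have hn : (0 : ℝ) < (n : ℝ) + 1 := by positivity
    refine ⟨fun _ => (1 / ((n : ℝ) + 2) + 1 / ((n : ℝ) + 1)) / 2, ?_, ?_⟩
    · have h4 : 1 / ((n : ℝ) + 2) < 1 / ((n : ℝ) + 1) :=
        one_div_lt_one_div_of_lt (by positivity) (by linarith)
      simp only [slab, Set.mem_ofPred_eq, Set.mem_Ioo]
      constructor <;> linarith
    · intro i _
      have h5 : 1 / ((n : ℝ) + 1) ≤ 1 := by
        rw [div_le_one hn]; linarith [(Nat.cast_nonneg n : (0 : ℝ) ≤ n)]
      have h6 : 1 / ((n : ℝ) + 2) < 1 := by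
        rw [div_lt_one (by positivity)]; linarith [(Nat.cast_nonneg n : (0 : ℝ) ≤ n)]
      have h7 : 0 < 1 / ((n : ℝ) + 2) := by positivity
      have h8 : 0 < 1 / ((n : ℝ) + 1) := by positivity
      constructor <;> linarith
  have h2 : cubeMeasure d (slab i0 n) = volume (slab i0 n ∩ cube d) :=
    Measure.restrict_apply (isOpen_slab i0 n).measurableSet
  rw [measureReal_def, h2]
  refine ENNReal.toReal_pos h1.ne' ?_
  exact ((measure_mono Set.inter_subset_right).trans_lt (by rw [volume_cube]; exact ENNReal.one_lt_top)).ne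

lemma not_finiteDimensional_L2 {d : ℕ} (hd : 1 ≤ d) : ¬ FiniteDimensional ℝ (L2 d) := by
  intro hfin
  let i0 : Fin d := ⟨0, hd⟩
  let f : ℕ → L2 d := fun n =>
    indicatorConstLp 2 (isOpen_slab i0 n).measurableSet (measure_ne_top (cubeMeasure d) _) (1 : ℝ)
  have hinner : ∀ m n, ⟪f m, f n⟫_ℝ = (cubeMeasure d).real (slab i0 m ∩ slab i0 n) := fun m n =>
    L2.real_inner_indicatorConstLp_one_indicatorConstLp_one _ _
  have h1 : LinearIndependent ℝ f := by
    refine linearIndependent_of_ne_zero_of_inner_eq_zero (fun n hn => ?_) (fun m n hmn => ?_)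
    · have h2 := hinner n n
      rw [hn, inner_zero_left, Set.inter_self] at h2
      exact absurd h2.symm (slab_pos i0 n).ne'
    · show ⟪f m, f n⟫_ℝ = 0
      rw [hinner]
      rcases lt_or_gt_of_ne hmn with h | h
      · rw [slab_disjoint i0 h, measureReal_empty]
      · rw [Set.inter_comm, slab_disjoint i0 h, measureReal_empty]
  have := h1.finite
  exact not_finite ℕ

lemma KK_infinite {d : ℕ} (hd : 1 ≤ d) (S : Submodule ℝ (L2 d)) (hS : FiniteDimensional ℝ S) :
    ¬ KK d ⊆ S := by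
  intro hsub
  have h1 : ∀ j, TopologicalSpace.denseSeq (L2 d) j ∈ S := by
    intro j
    have h2 : gen d (j + 1) ∈ S := by
      have := hsub (mem_KK (d := d) (j + 1) (s := 0) (by simp))
      simpa [yy] using this
    rw [gen] at h2
    have h3 : (1 / 2 : ℝ) ^ j * (1 + ‖TopologicalSpace.denseSeq (L2 d) j‖)⁻¹ ≠ 0 := by positivity
    exact (S.smul_mem_iff h3).1 h2
  have hcl : IsClosed (S : Set (L2 d)) := S.closed_of_finiteDimensional
  have h4 : Set.range (TopologicalSpace.denseSeq (L2 d)) ⊆ (S : Set (L2 d)) := by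
    rintro _ ⟨j, rfl⟩
    exact h1 j
  have h5 := hcl.closure_subset_iff.2 h4
  rw [(TopologicalSpace.denseRange_denseSeq (L2 d)).closure_range] at h5
  have h6 : S = ⊤ := by
    rw [eq_top_iff]
    intro x _
    exact h5 (Set.mem_univ x)
  apply not_finiteDimensional_L2 hd
  rw [h6] at hS
  exact Module.Finite.equiv (Submodule.topEquiv (R := ℝ) (M := L2 d))

end Pool.Agent.FNO
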