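import Pool.Agent.FNO.Example2

set_option autoImplicit false

open MeasureTheory
open scoped ENNReal NNReal InnerProductSpace

namespace Pool.Agent.FNO

/-- uniform distribution on `[-1,1]` -/
noncomputable def unif : Measure ℝ := (2⁻¹ : ℝ≥0∞) • volume.restrict (Set.Icc (-1 : ℝ) 1)

instance instProbUnif : IsProbabilityMeasure unif := by
  constructor
  rw [unif, Measure.smul_apply, Measure.restrict_apply_univ, Real.volume_Icc, smul_eq_mul]
  norm_num
  exact ENNReal.inv_mul_cancel (by norm_num) (by norm_num)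

lemma unif_compl : unif (Set.Icc (-1 : ℝ) 1)ᶜ = 0 := by
  rw [unif, Measure.smul_apply, Measure.restrict_apply measurableSet_Icc.compl]
  simp

lemma unif_singleton (a : ℝ) : unif {a} = 0 := by
  rw [unif, Measure.smul_apply, Measure.restrict_apply (measurableSet_singleton a)]
  have : volume ({a} ∩ Set.Icc (-1 : ℝ) 1) = 0 :=
    measure_mono_null Set.inter_subset_left (measure_singleton a)
  rw [this]; simp

lemma unif_interval (b r : ℝ) : unif {s | |s + b| ≤ r} ≤ ENNReal.ofReal (1 * r) := by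
  have h1 : {s : ℝ | |s + b| ≤ r} = Set.Icc (-b - r) (-b + r) := by
    ext s
    simp only [Set.mem_ofPred_eq, Set.mem_Icc, abs_le]
    constructor <;> rintro ⟨h1, h2⟩ <;> constructor <;> linarith
  rw [h1, unif, Measure.smul_apply, smul_eq_mul]
  calc (2⁻¹ : ℝ≥0∞) * (volume.restrict (Set.Icc (-1 : ℝ) 1)) (Set.Icc (-b - r) (-b + r))
      ≤ 2⁻¹ * volume (Set.Icc (-b - r) (-b + r)) :=
        mul_le_mul_right (Measure.restrict_apply_le _ _) _
    _ = ENNReal.ofReal 2⁻¹ * ENNReal.ofReal (-b + r - (-b - r)) := by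
        rw [Real.volume_Icc, ENNReal.ofReal_inv_of_pos (by norm_num)]
        norm_num
    _ = ENNReal.ofReal (1 * r) := by
        rw [← ENNReal.ofReal_mul (by norm_num)]
        congr 1
        ring

/-- geometric distribution with full support -/
noncomputable def geo : Measure ℕ :=
  ProbabilityTheory.geometricMeasure ⟨1 / 2, by norm_num, by norm_num⟩

instance instProbGeo : IsProbabilityMeasure geo := by
  unfold geo; infer_instance

lemma geo_pos (j : ℕ) : geo {j} ≠ 0 := by
  have h := ProbabilityTheory.geometricMeasure_real_singleton_pos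
    (p := ⟨1 / 2, by norm_num, by norm_num⟩) (by
      intro h; have := congrArg Subtype.val h; norm_num at this) (by
      intro h; have := congrArg Subtype.val h; norm_num at this) j
  intro h0
  rw [measureReal_def] at h
  unfold geo at h0
  rw [h0] at h
  simp at h

/-- the random element -/
noncomputable def elt (d : ℕ) (q : ℕ × ℝ) : L2 d := q.2 • one d + yy d q.1

lemma continuous_elt (d : ℕ) : Continuous (elt d) := by
  have h1 : Continuous fun q : ℕ × ℝ => yy d q.1 :=
    (continuous_of_discreteTopology (f := yy d)).comp continuous_fst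
  exact (continuous_snd.smul continuous_const).add h1

lemma measurable_elt (d : ℕ) : Measurable (elt d) := (continuous_elt d).measurable

/-- the measure of the example -/
noncomputable def rho (d : ℕ) : Measure (L2 d) := (geo.prod unif).map (elt d)

instance instProbRho (d : ℕ) : IsProbabilityMeasure (rho d) :=
  Measure.isProbabilityMeasure_map (measurable_elt d).aemeasurable

lemma rho_compl (d : ℕ) : rho d (KK d)ᶜ = 0 := by
  rw [rho, Measure.map_apply (measurable_elt d) (isCompact_KK d).isClosed.measurableSet.compl]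
  refine measure_mono_null (t := Set.univ ×ˢ (Set.Icc (-1 : ℝ) 1)ᶜ) ?_ ?_
  · rintro ⟨j, s⟩ h
    refine ⟨Set.mem_univ _, fun hs => h ?_⟩
    exact mem_KK j hs
  · rw [Measure.prod_prod, unif_compl, mul_zero]

lemma mean_elt (d : ℕ) (q : ℕ × ℝ) : mean (elt d q) = q.2 + mean (yy d q.1) := by
  rw [mean_eq_inner, mean_eq_inner, elt, inner_add_right, inner_smul_right,
    real_inner_self_eq_norm_sq, norm_one]
  ring

lemma rho_law (d : ℕ) : MeanLawBounded (rho d) := by
  refine ⟨1, fun a r _ => ?_⟩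
  have hmeas : MeasurableSet {u : L2 d | |mean u - a| ≤ r} :=
    measurableSet_le (((measurable_mean d).sub_const a).abs) measurable_const
  rw [rho, Measure.map_apply (measurable_elt d) hmeas,
    Measure.prod_apply ((measurable_elt d) hmeas)]
  calc ∫⁻ j, unif (Prod.mk j ⁻¹' (elt d ⁻¹' {u | |mean u - a| ≤ r})) ∂geo
      ≤ ∫⁻ _j, ENNReal.ofReal (1 * r) ∂geo := by
        refine lintegral_mono fun j => ?_
        have : Prod.mk j ⁻¹' (elt d ⁻¹' {u | |mean u - a| ≤ r}) =
            {s : ℝ | |s + (mean (yy d j) - a)| ≤ r} := by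
          ext s
          simp only [Set.mem_preimage, Set.mem_ofPred_eq, mean_elt]
          rw [add_sub_assoc]
        rw [this]
        exact unif_interval _ _
    _ = ENNReal.ofReal (1 * r) := by simp

lemma rho_cov (d : ℕ) (v : L2 d) (hv : v ≠ 0) :
    0 < ∫ u, (⟪v, u⟫_ℝ - ∫ w, ⟪v, w⟫_ℝ ∂(rho d)) ^ 2 ∂(rho d) := by
  set m := ∫ w, ⟪v, w⟫_ℝ ∂(rho d) with hm
  have hcont : Continuous fun u : L2 d => (⟪v, u⟫_ℝ - m) ^ 2 :=
    ((continuous_const.inner continuous_id).sub continuous_const).pow 2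
  have hnn : 0 ≤ fun u : L2 d => (⟪v, u⟫_ℝ - m) ^ 2 := fun u => sq_nonneg _
  obtain ⟨R, hR⟩ := (isCompact_KK d).isBounded.exists_norm_le
  have hae : ∀ᵐ u ∂(rho d), u ∈ KK d := by
    rw [ae_iff]
    exact rho_compl d
  have hint : Integrable (fun u : L2 d => (⟪v, u⟫_ℝ - m) ^ 2) (rho d) := by
    refine Integrable.of_bound hcont.aestronglyMeasurable ((‖v‖ * R + |m|) ^ 2) ?_
    filter_upwards [hae] with u hu
    rw [Real.norm_eq_abs, abs_pow]
    refine pow_le_pow_left₀ (abs_nonneg _) ?_ 2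
    calc |⟪v, u⟫_ℝ - m| ≤ |⟪v, u⟫_ℝ| + |m| := abs_sub _ _
      _ ≤ ‖v‖ * ‖u‖ + |m| := add_le_add (abs_real_inner_le_norm v u) le_rfl
      _ ≤ ‖v‖ * R + |m| :=
        add_le_add (mul_le_mul_of_nonneg_left (hR u hu) (norm_nonneg _)) le_rfl
  by_contra hcon
  have h0 : ∫ u, (⟪v, u⟫_ℝ - m) ^ 2 ∂(rho d) = 0 :=
    le_antisymm (not_lt.1 hcon) (integral_nonneg hnn)
  rw [integral_eq_zero_iff_of_nonneg hnn hint] at h0
  have h1 : ∀ᵐ u ∂(rho d), ⟪v, u⟫_ℝ = m := by
    filter_upwards [h0] with u hu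
    have : (⟪v, u⟫_ℝ - m) ^ 2 = 0 := hu
    have := pow_eq_zero_iff (two_ne_zero) |>.1 this
    linarith
  have h2 : ∀ᵐ q ∂(geo.prod unif), ⟪v, elt d q⟫_ℝ = m :=
    ae_of_ae_map (measurable_elt d).aemeasurable h1
  have h3 := Measure.ae_ae_of_ae_prod h2
  have h4 : ∀ j, ∀ᵐ s ∂unif, s * ⟪v, one d⟫_ℝ + ⟪v, yy d j⟫_ℝ = m := by
    intro j
    have h5 : ∀ᵐ s ∂unif, ⟪v, elt d (j, s)⟫_ℝ = m := by
      by_contra hj
      exact geo_pos j (measure_mono_null (Set.singleton_subset_iff.2 hj) (ae_iff.1 h3))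
    filter_upwards [h5] with s hs
    rw [elt, inner_add_right, inner_smul_right] at hs
    exact hs
  have h5 : ⟪v, one d⟫_ℝ = 0 := by
    by_contra hne
    have h6 := h4 0
    have h7 : ∀ᵐ s ∂unif, s ∈ ({(m - ⟪v, yy d 0⟫_ℝ) / ⟪v, one d⟫_ℝ} : Set ℝ) := by
      filter_upwards [h6] with s hs
      rw [Set.mem_singleton_iff, eq_div_iff hne]
      linarith
    have h8 : unif ({(m - ⟪v, yy d 0⟫_ℝ) / ⟪v, one d⟫_ℝ} : Set ℝ)ᶜ = 0 := ae_iff.1 h7
    have h9 := prob_add_prob_compl (μ := unif)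
      (measurableSet_singleton ((m - ⟪v, yy d 0⟫_ℝ) / ⟪v, one d⟫_ℝ))
    rw [h8, unif_singleton] at h9
    simp at h9
  have h6 : ∀ j, ⟪v, yy d j⟫_ℝ = m := by
    intro j
    obtain ⟨s, hs⟩ := (h4 j).exists
    rw [h5, mul_zero, zero_add] at hs
    exact hs
  have h7 : m = 0 := by
    rw [← h6 0]
    simp [yy]
  apply hv
  refine eq_zero_of_inner_gen v fun j => ?_
  have := h6 (j + 1)
  rw [h7] at this
  exact this

theorem admissible_example {d : ℕ} (hd : 1 ≤ d) : Admissible (KK d) (rho d) where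
  compact := isCompact_KK d
  convex := convex_KK d
  infinite_dim := KK_infinite hd
  prob := instProbRho d
  supp := rho_compl d
  cov_pos := rho_cov d

end Pool.Agent.FNO
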