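import Pool.Agent.FNO.Tent

set_option autoImplicit false

open MeasureTheory
open scoped ENNReal NNReal InnerProductSpace

namespace Pool.Agent.FNO

/-- The fooling function. -/
noncomputable def fool (d : ℕ) (T h : ℝ) (N : ℕ) (c : ℕ → ℝ) (A : ℝ) (u : L2 d) : L2 d :=
  (A * G T h N c (mean u)) • one d

lemma hidden_net_const {d M : ℕ} {T A : ℝ} {s : ℕ → Fin M → Fin 3 → ℝ} {co : ℕ → Fin M → ℝ}
    (u : (Fin d → ℝ) → ℝ) (l : ℕ) (x x' : Fin d → ℝ) (c : Chan M) :
    hidden (net d M T A s co) u (l + 1) x c = hidden (net d M T A s co) u (l + 1) x' c := by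
  induction l generalizing x x' c with
  | zero =>
    rw [hidden]
    beta_reduce
    have hκ : (net d M T A s co).κ = 1 := rfl
    rw [hκ, freqBox_one, Finset.sum_singleton, Finset.sum_singleton]
    have hexp : ∀ x : Fin d → ℝ,
        Complex.exp (2 * Real.pi * Complex.I * ∑ i, (((0 : Fin d → ℤ) i : ℤ) : ℂ) * (x i : ℂ))
        = 1 := fun x => by simp
    rw [hexp, hexp]
    have hW : ∀ x, ∑ c', (net d M T A s co).W 0 c c' * hidden (net d M T A s co) u 0 x c' = 0 := by
      intro x
      refine Finset.sum_eq_zero fun c' _ => ?_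
      simp [net]
    rw [hW, hW]
  | succ l ih =>
    have hP : ∀ x : Fin d → ℝ, (∑ k ∈ freqBox d (net d M T A s co).κ,
        (∑ c', (net d M T A s co).P (l + 1) k c c' *
        fourierCoeffCube (fun y => hidden (net d M T A s co) u (l + 1) y c') k) *
          Complex.exp (2 * Real.pi * Complex.I * ∑ i, (k i : ℂ) * (x i : ℂ))) = 0 := by
      intro x
      refine Finset.sum_eq_zero fun k _ => ?_
      have : ∑ c', (net d M T A s co).P (l + 1) k c c' *
          fourierCoeffCube (fun y => hidden (net d M T A s co) u (l + 1) y c') k = 0 := by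
        refine Finset.sum_eq_zero fun c' _ => ?_
        simp [net]
      rw [this, zero_mul]
    rw [hidden]
    beta_reduce
    rw [hP x, hP x']
    simp only [ih x x']

lemma output_net_const {d M : ℕ} {T A : ℝ} {s : ℕ → Fin M → Fin 3 → ℝ} {co : ℕ → Fin M → ℝ}
    (u : (Fin d → ℝ) → ℝ) (x x' : Fin d → ℝ) :
    output (net d M T A s co) u x = output (net d M T A s co) u x' := by
  have hL : (net d M T A s co).L = M + 1 := rfl
  simp only [output, hL, hidden_net_const u M x x']

lemma knot_bounds {T h : ℝ} {M : ℕ} (hM : 1 ≤ M) (hh : 0 < h) (hMh : ((M * M : ℕ) : ℝ) * h = T)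
    {l : ℕ} (hl : l ≤ M) (j : Fin M) (i : Fin 3) :
    0 ≤ T + knot T h M l j i ∧ T + knot T h M l j i ≤ 6 * T := by
  have e : T + knot T h M l j i = 2 * h * ((l * M + j : ℕ) : ℝ) + ((i : ℕ) : ℝ) * h := by
    rw [knot]; ring
  rw [e]
  have hi : (((i : ℕ) : ℝ)) ≤ 2 := by
    have := i.2
    exact_mod_cast (by omega : (i : ℕ) ≤ 2)
  have hi0 : (0 : ℝ) ≤ ((i : ℕ) : ℝ) := by positivity
  have h1 : l * M + j ≤ M * M + M := by
    have := j.2
    have := Nat.mul_le_mul_right M hl
    omega
  have h2 : M * M + M ≤ 2 * (M * M) := by nlinarith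
  have h3 : ((l * M + j : ℕ) : ℝ) ≤ 2 * ((M * M : ℕ) : ℝ) := by exact_mod_cast h1.trans h2
  have h4 : (1 : ℝ) ≤ ((M * M : ℕ) : ℝ) := by
    exact_mod_cast Nat.one_le_iff_ne_zero.2 (by positivity)
  constructor
  · positivity
  · have h5 : h ≤ T := by nlinarith
    nlinarith

lemma net_bounded {d M : ℕ} {T h A : ℝ} {c : ℕ → ℝ} (hM : 1 ≤ M) (hh : 0 < h)
    (hMh : ((M * M : ℕ) : ℝ) * h = T) (hT : 1 ≤ T) (hTM : 2 * T ≤ M) (hA1 : |A| ≤ 1)
    (hc0 : ∀ k, 0 ≤ c k) (hc1 : ∀ k, c k ≤ 1) {m : ℕ} (hm : m = 3 * M + 2) :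
    (net d M T A (knot T h M) fun l j => c (l * M + j) / h).Bounded (Real.exp m) := by
  have hm' : (m : ℝ) = 3 * M + 2 := by rw [hm]; push_cast; ring
  have hM' : (1 : ℝ) ≤ M := by exact_mod_cast hM
  have hq := Real.quadratic_le_exp_of_nonneg (x := (m : ℝ)) (by positivity)
  have hB1 : 6 * T ≤ Real.exp m := by nlinarith
  have hB2 : 2 * (M : ℝ) ^ 2 ≤ Real.exp m := by nlinarith
  have hB3 : 1 ≤ Real.exp m := by nlinarith
  have hB0 : 0 ≤ Real.exp m := by linarith
  have hhinv : h⁻¹ ≤ (M : ℝ) ^ 2 := by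
    have e : ((M * M : ℕ) : ℝ) = (M : ℝ) ^ 2 := by push_cast; ring
    rw [e] at hMh
    rw [inv_le_iff_one_le_mul₀ hh]
    linarith
  have hco : ∀ l (j : Fin M) (i : Fin 3), |c (l * M + j) / h * eps i| ≤ Real.exp m := by
    intro l j i
    have he : |eps i| ≤ 2 := by
      unfold eps
      split_ifs <;> norm_num
    have h2 : |c (l * M + j) / h| ≤ (M : ℝ) ^ 2 := by
      rw [abs_of_nonneg (div_nonneg (hc0 _) hh.le), div_eq_mul_inv]
      calc c (l * M + j) * h⁻¹ ≤ 1 * h⁻¹ :=
            mul_le_mul_of_nonneg_right (hc1 _) (inv_nonneg.2 hh.le)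
        _ ≤ _ := by rw [one_mul]; exact hhinv
    rw [abs_mul]
    calc _ ≤ (M : ℝ) ^ 2 * 2 := mul_le_mul h2 he (abs_nonneg _) (by positivity)
      _ ≤ _ := by linarith
  constructor
  · intro c'; simpa [net] using hB3
  · intro c' i; simpa [net] using hB0
  · intro c'; simpa [net] using hB0
  · intro c'
    rcases c' with (_ | _) | _
    · simpa [net] using hB0
    · simp only [net]
      linarith
    · simpa [net] using hB0
  · simpa [net] using hB0
  · intro l _ c1 c2
    rcases l with _ | l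
    · simpa [net] using hB0
    · rcases c1 with (_ | _) | ⟨j, i⟩ <;> rcases c2 with (_ | _) | ⟨j', i'⟩
      · simpa [net] using hB3
      · simpa [net] using hB0
      · simpa [net] using hB0
      · simpa [net] using hB0
      · simpa [net] using hB3
      · simpa only [net] using hco l j' i'
      · simpa [net] using hB3
      · simpa [net] using hB0
      · simpa [net] using hB0
  · intro l hl c1
    have hl' : l ≤ M := by
      have : (net d M T A (knot T h M) fun l j => c (l * M + j) / h).L = M + 1 := rfl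
      omega
    rcases l with _ | l
    · rcases c1 with (_ | _) | ⟨j, i⟩
      · simp only [net]
        rw [abs_of_nonneg (by linarith)]
        linarith
      · simpa [net] using hB0
      · simp only [net]
        have := knot_bounds hM hh hMh hl' j i
        rw [abs_neg, abs_le]
        constructor <;> linarith
    · rcases c1 with (_ | _) | ⟨j, i⟩
      · simpa [net] using hB0
      · simpa [net] using hB0
      · simp only [net]
        have := knot_bounds hM hh hMh hl' j i
        rw [abs_neg, abs_le]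
        constructor <;> linarith
  · intro l _ k c1 c2
    simp only [net]
    split_ifs
    · rcases c1 with (_ | _) | _ <;> rcases c2 with (_ | _) | _ <;> simp <;> linarith
    · simpa using hB0
  · intro l _ k c1 c2
    simp only [net]
    split_ifs
    · rcases c1 with (_ | _) | _ <;> rcases c2 with (_ | _) | _ <;> simp <;> linarith
    · simpa using hB0

lemma exists_net {d M : ℕ} {T h A : ℝ} {c : ℕ → ℝ} (hM : 1 ≤ M) (hh : 0 < h)
    (hMh : ((M * M : ℕ) : ℝ) * h = T) (hT : 1 ≤ T) (hTM : 2 * T ≤ M) (hA1 : |A| ≤ 1)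
    (hc0 : ∀ k, 0 ≤ c k) (hc1 : ∀ k, c k ≤ 1) {m : ℕ} (hm : m = 3 * M + 2) :
    ∃ Ψ ∈ NN d m, ∀ u : L2 d, -T ≤ mean u → Ψ u = fool d T h (M * M) c A u := by
  set θ := net d M T A (knot T h M) fun l j => c (l * M + j) / h with hθ
  refine ⟨fun u => output θ u 0 • one d, ?_, ?_⟩
  · refine mem_NN θ ?_ ?_ ?_ ?_ ?_
      (net_bounded hM hh hMh hT hTM hA1 hc0 hc1 hm) _ ?_
    · simp [hθ, net]
    · simp [hθ, net]
    · simp [Chan]
      omega
    · simp [hθ, net]
      omega
    · simp [hθ, net]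
      omega
    · intro u
      filter_upwards [coeFn_smul_one d (output θ u 0)] with x hx
      rw [hx]
      exact output_net_const u 0 x
  · intro u hu
    have h1 := output_net (d := d) (M := M) (A := A) (s := knot T h M)
      (co := fun l j => c (l * M + j) / h) (T := T) (u : (Fin d → ℝ) → ℝ) (mean u) rfl hu
      (fun l => by
        rw [net_sum hh]
        exact G_nonneg hh hc0 _) 0
    rw [net_sum hh] at h1
    show output θ u 0 • one d = _
    rw [hθ, h1]
    rfl

lemma enorm_fool {d : ℕ} {T h A : ℝ} {N : ℕ} {c : ℕ → ℝ} (hh : 0 < h)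
    (hc0 : ∀ k, 0 ≤ c k) (u : L2 d) :
    ‖fool d T h N c A u‖ₑ = ENNReal.ofReal (|A| * G T h N c (mean u)) := by
  rw [fool, enorm_smul, ← ofReal_norm (one d), norm_one, ENNReal.ofReal_one, mul_one,
    ← ofReal_norm, Real.norm_eq_abs, abs_mul, abs_of_nonneg (G_nonneg hh hc0 _)]

lemma continuous_fool {d : ℕ} {T h A : ℝ} {N : ℕ} {c : ℕ → ℝ} : Continuous (fool d T h N c A) := by
  unfold fool
  have h1 : Continuous fun u : L2 d => A * G T h N c (mean u) :=
    continuous_const.mul ((continuous_G T h N c).comp (continuous_mean d))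
  exact h1.smul continuous_const

lemma fool_mem_targetClass {d M : ℕ} {T h α : ℝ} {c : ℕ → ℝ} {K : Set (L2 d)} (hM : 1 ≤ M)
    (hh : 0 < h) (hα : 0 < α)
    (hMh : ((M * M : ℕ) : ℝ) * h = T) (hT : 1 ≤ T) (hTM : 2 * T ≤ M)
    (hc0 : ∀ k, 0 ≤ c k) (hc1 : ∀ k, c k ≤ 1) {m : ℕ} (hm : m = 3 * M + 2)
    (hK : ∀ u ∈ K, |mean u| < T) {A : ℝ} (hA : |A| = (m : ℝ) ^ (-α)) :
    fool d T h (M * M) c A ∈ targetClass K α := by
  have hm1 : 1 ≤ m := by omega
  have hm1' : (1 : ℝ) ≤ m := by exact_mod_cast hm1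
  have hm0 : (0 : ℝ) < m := by linarith
  have hA1 : |A| ≤ 1 := by
    rw [hA]; exact Real.rpow_le_one_of_one_le_of_nonpos hm1' (by linarith)
  have hnorm : ∀ u ∈ K, ‖fool d T h (M * M) c A u‖ₑ ≤ ENNReal.ofReal |A| := by
    intro u hu
    obtain ⟨h1, h2⟩ := abs_lt.1 (hK u hu)
    rw [enorm_fool hh hc0]
    refine ENNReal.ofReal_le_ofReal ?_
    calc |A| * G T h (M * M) c (mean u) ≤ |A| * 1 :=
          mul_le_mul_of_nonneg_left (G_le_one hh hMh hc1 h1.le h2) (abs_nonneg _)
      _ = |A| := mul_one _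
  refine ⟨continuous_fool.continuousOn, ?_⟩
  refine (iInf_le _ (1 : ℝ)).trans ((iInf_le _ one_pos).trans ((iInf_le _ ?_).trans ?_))
  · rw [inv_one, one_smul, Gam, max_le_iff]
    constructor
    · refine iSup₂_le fun u hu => (hnorm u hu).trans ?_
      rw [← ENNReal.ofReal_one]
      exact ENNReal.ofReal_le_ofReal hA1
    · refine iSup₂_le fun m' hm' => ?_
      rcases le_or_gt m m' with hmm | hmm
      · obtain ⟨Ψ, hΨ, hΨu⟩ := exists_net (d := d) (c := c) hM hh hMh hT hTM hA1 hc0 hc1 hm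
        have h1 : approxErr K (fool d T h (M * M) c A) m' = 0 := by
          refine le_antisymm ((iInf₂_le Ψ (NN_mono hmm hΨ)).trans ?_) (zero_le)
          refine iSup₂_le fun u hu => ?_
          rw [Pi.sub_apply, hΨu u (abs_lt.1 (hK u hu)).1.le, sub_self, enorm_zero]
        rw [h1, mul_zero]
        exact zero_le
      · have h1 : approxErr K (fool d T h (M * M) c A) m' ≤ ENNReal.ofReal |A| := by
          refine (iInf₂_le 0 (zero_mem_NN hm')).trans ?_
          rw [sub_zero]
          exact iSup₂_le hnorm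
        have hm'1 : (1 : ℝ) ≤ m' := by exact_mod_cast hm'
        have h2 : ((m' : ℝ≥0∞)) ^ α = ENNReal.ofReal ((m' : ℝ) ^ α) := by
          rw [← ENNReal.ofReal_rpow_of_pos (by linarith), ENNReal.ofReal_natCast]
        calc ((m' : ℝ≥0∞)) ^ α * approxErr K (fool d T h (M * M) c A) m'
            ≤ ENNReal.ofReal ((m' : ℝ) ^ α) * ENNReal.ofReal |A| := by
              rw [h2]; exact mul_le_mul_right h1 _
          _ = ENNReal.ofReal ((m' : ℝ) ^ α * |A|) := by
              rw [ENNReal.ofReal_mul (by positivity)]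
          _ ≤ ENNReal.ofReal 1 := by
              refine ENNReal.ofReal_le_ofReal ?_
              have h3 : (m' : ℝ) ^ α ≤ (m : ℝ) ^ α :=
                Real.rpow_le_rpow (by linarith) (by exact_mod_cast hmm.le) hα.le
              calc (m' : ℝ) ^ α * |A| ≤ (m : ℝ) ^ α * |A| :=
                    mul_le_mul_of_nonneg_right h3 (abs_nonneg _)
                _ = 1 := by
                  rw [hA, ← Real.rpow_add hm0, add_neg_cancel, Real.rpow_zero]
          _ = 1 := ENNReal.ofReal_one
  · rw [ENNReal.ofReal_one]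

end Pool.Agent.FNO
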