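import Pool.Agent.FNO.Lower

set_option autoImplicit false

open MeasureTheory
open scoped ENNReal NNReal InnerProductSpace

namespace Pool.Agent.FNO

open Classical in
/-- coefficients: kill the cells of the sample points -/
noncomputable def coef {d n : ℕ} (T h : ℝ) (p : Fin n → L2 d) (k : ℕ) : ℝ :=
  if ∃ i, cell T h (mean (p i)) = k then 0 else 1

lemma coef_nonneg {d n : ℕ} (T h : ℝ) (p : Fin n → L2 d) (k : ℕ) : 0 ≤ coef T h p k := by
  unfold coef; split_ifs <;> norm_num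

lemma coef_le_one {d n : ℕ} (T h : ℝ) (p : Fin n → L2 d) (k : ℕ) : coef T h p k ≤ 1 := by
  unfold coef; split_ifs <;> norm_num

lemma fool_sample {d n N : ℕ} {T h A : ℝ} (p : Fin n → L2 d) (hh : 0 < h) (hN : N * h = T)
    (i : Fin n) (hp : |mean (p i)| < T) : fool d T h N (coef T h p) A (p i) = 0 := by
  obtain ⟨h1, h2⟩ := abs_lt.1 hp
  rw [fool, G_eq hh h1.le (cell_lt hh hN h1.le h2), coef, if_pos ⟨i, rfl⟩]
  simp

lemma low_measure {d n N : ℕ} {K : Set (L2 d)} {ρ : Measure (L2 d)} {C T h η : ℝ}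
    (p : Fin n → L2 d) (hC : 1 ≤ C)
    (hlaw : ∀ a r : ℝ, 0 < r → ρ {u | |mean u - a| ≤ r} ≤ ENNReal.ofReal (C * r))
    (hT : 1 ≤ T) (hK : ∀ u ∈ K, |mean u| < T) (hh : 0 < h) (hN : N * h = T) (hN1 : 1 ≤ N)
    (hNn : 4 * n * C * T ≤ N) (hη : η = 1 / (8 * C * T)) (hp : ∀ i, |mean (p i)| < T) :
    ρ (K ∩ {u | G T h N (coef T h p) (mean u) < η}) ≤ ENNReal.ofReal (1 / 2) := by
  have hη0 : 0 < η := by rw [hη]; positivity
  have hsub : K ∩ {u | G T h N (coef T h p) (mean u) < η} ⊆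
      (⋃ i : Fin n, {u | |mean u - (-T + 2 * h * (cell T h (mean (p i)) : ℝ) + h)| ≤ h}) ∪
      ⋃ k ∈ Finset.range (N + 1), {u | |mean u - (-T + 2 * h * (k : ℝ))| ≤ η * h} := by
    rintro u ⟨huK, hu⟩
    obtain ⟨h1, h2⟩ := abs_lt.1 (hK u huK)
    by_cases hc : ∃ i, cell T h (mean (p i)) = cell T h (mean u)
    · left
      obtain ⟨i, hi⟩ := hc
      rw [Set.mem_iUnion]
      refine ⟨i, ?_⟩
      rw [Set.mem_ofPred_eq, hi]
      obtain ⟨h3, h4⟩ := cell_bounds hh h1.le
      rw [abs_le]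
      constructor <;> linarith
    · right
      have hc1 : coef T h p (cell T h (mean u)) = 1 := if_neg hc
      obtain ⟨k, hk, hk2⟩ := G_low hh hN h1.le h2 hu hc1
      simp only [Set.mem_iUnion]
      exact ⟨k, hk, hk2⟩
  have hC0 : 0 ≤ C := by linarith
  have hNr : (1 : ℝ) ≤ N := by exact_mod_cast hN1
  calc ρ (K ∩ {u | G T h N (coef T h p) (mean u) < η})
      ≤ ρ (⋃ i : Fin n, {u | |mean u - (-T + 2 * h * (cell T h (mean (p i)) : ℝ) + h)| ≤ h}) +
        ρ (⋃ k ∈ Finset.range (N + 1), {u | |mean u - (-T + 2 * h * (k : ℝ))| ≤ η * h}) :=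
        (measure_mono hsub).trans (measure_union_le _ _)
    _ ≤ ∑ _i : Fin n, ENNReal.ofReal (C * h) +
        ∑ _k ∈ Finset.range (N + 1), ENNReal.ofReal (C * (η * h)) := by
        refine add_le_add ?_ ?_
        · refine (measure_iUnion_fintype_le _ _).trans ?_
          exact Finset.sum_le_sum fun i _ => hlaw _ _ hh
        · refine (measure_biUnion_finset_le _ _).trans ?_
          exact Finset.sum_le_sum fun i _ => hlaw _ _ (mul_pos hη0 hh)
    _ = ENNReal.ofReal (n * (C * h) + (N + 1 : ℕ) * (C * (η * h))) := by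
        rw [ENNReal.ofReal_add (by positivity) (by positivity),
          ENNReal.ofReal_mul (p := (n : ℝ)) (by positivity),
          ENNReal.ofReal_mul (p := ((N + 1 : ℕ) : ℝ)) (by positivity),
          ENNReal.ofReal_natCast, ENNReal.ofReal_natCast]
        simp
    _ ≤ ENNReal.ofReal (1 / 2) := by
        refine ENNReal.ofReal_le_ofReal ?_
        have e1 : n * (C * h) ≤ 1 / 4 := by
          have h3 : 4 * n * C * T * h ≤ N * h := mul_le_mul_of_nonneg_right hNn hh.le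
          rw [hN] at h3
          have h4 : T * (4 * (n * (C * h))) ≤ T * 1 := by nlinarith
          have h5 := le_of_mul_le_mul_left h4 (by linarith)
          linarith
        have e2 : ((N + 1 : ℕ) : ℝ) * (C * (η * h)) ≤ 1 / 4 := by
          have h3 : ((N + 1 : ℕ) : ℝ) ≤ 2 * N := by push_cast; linarith
          calc ((N + 1 : ℕ) : ℝ) * (C * (η * h)) ≤ 2 * N * (C * (η * h)) :=
                mul_le_mul_of_nonneg_right h3 (by positivity)
            _ = 2 * C * η * (N * h) := by ring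
            _ = 1 / 4 := by
                rw [hN, hη]
                field_simp
                norm_num
        linarith

lemma measurable_mean (d : ℕ) : Measurable (mean : L2 d → ℝ) := (continuous_mean d).measurable

lemma stronglyMeasurable_fool {d N : ℕ} {T h A : ℝ} {c : ℕ → ℝ} :
    StronglyMeasurable (fool d T h N c A) := by
  unfold fool
  have h1 : Measurable fun u : L2 d => A * G T h N c (mean u) :=
    measurable_const.mul ((continuous_G T h N c).measurable.comp (measurable_mean d))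
  exact h1.stronglyMeasurable.smul_const _

lemma eLpNorm_fool_ge {d n N : ℕ} {K : Set (L2 d)} {ρ : Measure (L2 d)} {C T h η A : ℝ}
    (p : Fin n → L2 d) (hC : 1 ≤ C) (hρ : IsProbabilityMeasure ρ) (hsupp : ρ Kᶜ = 0)
    (hlaw : ∀ a r : ℝ, 0 < r → ρ {u | |mean u - a| ≤ r} ≤ ENNReal.ofReal (C * r))
    (hT : 1 ≤ T) (hK : ∀ u ∈ K, |mean u| < T) (hh : 0 < h) (hN : N * h = T) (hN1 : 1 ≤ N)
    (hNn : 4 * n * C * T ≤ N) (hη : η = 1 / (8 * C * T)) (hp : ∀ i, |mean (p i)| < T) :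
    ENNReal.ofReal (|A| * η / 2) ≤ eLpNorm (fool d T h N (coef T h p) A) 2 ρ := by
  have hη0 : 0 < η := by rw [hη]; positivity
  have hlow := low_measure p hC hlaw hT hK hh hN hN1 hNn hη hp
  set f := fool d T h N (coef T h p) A with hf
  have hhigh : ENNReal.ofReal (1 / 2) ≤ ρ {u | ENNReal.ofReal (|A| * η) ≤ ‖f u‖ₑ} := by
    have hcover : (Set.univ : Set (L2 d)) ⊆ Kᶜ ∪ ((K ∩ {u | G T h N (coef T h p) (mean u) < η}) ∪
        {u | ENNReal.ofReal (|A| * η) ≤ ‖f u‖ₑ}) := by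
      intro u _
      by_cases h1 : u ∈ K
      · right
        by_cases h2 : G T h N (coef T h p) (mean u) < η
        · left; exact ⟨h1, h2⟩
        · right
          push Not at h2
          rw [Set.mem_ofPred_eq, hf, enorm_fool hh (coef_nonneg T h p)]
          exact ENNReal.ofReal_le_ofReal (mul_le_mul_of_nonneg_left h2 (abs_nonneg _))
      · left; exact h1
    have h1 : (1 : ℝ≥0∞) ≤ ENNReal.ofReal (1 / 2) +
        ρ {u | ENNReal.ofReal (|A| * η) ≤ ‖f u‖ₑ} := by
      calc (1 : ℝ≥0∞) = ρ Set.univ := (measure_univ).symm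
        _ ≤ ρ Kᶜ + (ρ (K ∩ {u | G T h N (coef T h p) (mean u) < η}) +
            ρ {u | ENNReal.ofReal (|A| * η) ≤ ‖f u‖ₑ}) :=
            (measure_mono hcover).trans ((measure_union_le _ _).trans
              (add_le_add le_rfl (measure_union_le _ _)))
        _ ≤ _ := by
            rw [hsupp, zero_add]
            exact add_le_add hlow le_rfl
    have h2 : ENNReal.ofReal (1 / 2) + ENNReal.ofReal (1 / 2) = 1 := by
      rw [← ENNReal.ofReal_add (by norm_num) (by norm_num)]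
      norm_num
    rw [← h2] at h1
    exact (ENNReal.add_le_add_iff_left ENNReal.ofReal_ne_top).1 h1
  have hmk := mul_meas_ge_le_pow_eLpNorm' (p := 2) ρ (by norm_num) (by norm_num)
    (stronglyMeasurable_fool (d := d) (N := N) (T := T) (h := h) (A := A)
      (c := coef T h p)).aestronglyMeasurable (ENNReal.ofReal (|A| * η))
  rw [← hf] at hmk
  have h2r : (2 : ℝ≥0∞).toReal = 2 := by norm_num
  rw [h2r] at hmk
  have hfin : ENNReal.ofReal (|A| * η / 2) ^ (2 : ℝ) ≤ eLpNorm f 2 ρ ^ (2 : ℝ) := by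
    refine le_trans ?_ hmk
    calc ENNReal.ofReal (|A| * η / 2) ^ (2 : ℝ)
        = ENNReal.ofReal (|A| * η) ^ (2 : ℝ) * ENNReal.ofReal (1 / 4) := by
          rw [ENNReal.ofReal_rpow_of_nonneg (by positivity) (by norm_num),
            ENNReal.ofReal_rpow_of_nonneg (by positivity) (by norm_num),
            ← ENNReal.ofReal_mul (by positivity)]
          congr 1
          rw [Real.rpow_two, Real.rpow_two]
          ring
      _ ≤ ENNReal.ofReal (|A| * η) ^ (2 : ℝ) * ENNReal.ofReal (1 / 2) :=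
          mul_le_mul_right (ENNReal.ofReal_le_ofReal (by norm_num)) _
      _ ≤ _ := mul_le_mul_right hhigh _
  exact (ENNReal.rpow_le_rpow_iff (by norm_num)).1 hfin

/-- The lower bound for the sampling widths. -/
theorem samplingWidth_ge {d n M m : ℕ} {K : Set (L2 d)} {ρ : Measure (L2 d)} {C T η α : ℝ}
    (hα : 0 < α) (hC : 1 ≤ C) (hρ : IsProbabilityMeasure ρ) (hsupp : ρ Kᶜ = 0)
    (hlaw : ∀ a r : ℝ, 0 < r → ρ {u | |mean u - a| ≤ r} ≤ ENNReal.ofReal (C * r))
    (hT : 1 ≤ T) (hK : ∀ u ∈ K, |mean u| < T) (hM : 1 ≤ M) (hTM : 2 * T ≤ M)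
    (hNn : 4 * n * C * T ≤ (M * M : ℕ)) (hη : η = 1 / (8 * C * T)) (hm : m = 3 * M + 2) :
    ENNReal.ofReal ((m : ℝ) ^ (-α) * η / 2) ≤ samplingWidth K ρ (targetClass K α) n := by
  refine le_iInf₂ fun p D => ?_
  have hMM : 1 ≤ M * M := by nlinarith
  have hMMr : (0 : ℝ) < (M * M : ℕ) := by exact_mod_cast hMM
  set h : ℝ := T / (M * M : ℕ) with hh
  have hh0 : 0 < h := by positivity
  have hN : ((M * M : ℕ) : ℝ) * h = T := by rw [hh]; field_simp
  set q : Fin n → L2 d := fun i => (p i : L2 d) with hq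
  have hqK : ∀ i, |mean (q i)| < T := fun i => hK _ (p i).2
  have hm0 : (0 : ℝ) < m := by rw [hm]; positivity
  set A : ℝ := (m : ℝ) ^ (-α) with hA
  have hA0 : 0 ≤ A := Real.rpow_nonneg hm0.le _
  have hmem : ∀ A' : ℝ, |A'| = A → fool d T h (M * M) (coef T h q) A' ∈ targetClass K α := fun A' hA' =>
    fool_mem_targetClass hM hh0 hα hN hT hTM (coef_nonneg T h q) (coef_le_one T h q) hm hK hA'
  set S := ⨆ f ∈ targetClass K α, eLpNorm (fun u => f u - D (fun i => f (p i)) u) 2 ρ with hS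
  have hle : ∀ A' : ℝ, |A'| = A →
      eLpNorm (fun u => fool d T h (M * M) (coef T h q) A' u - D 0 u) 2 ρ ≤ S := by
    intro A' hA'
    have h1 : (fun i => fool d T h (M * M) (coef T h q) A' (p i)) = (0 : Fin n → L2 d) := by
      funext i
      exact fool_sample q hh0 hN i (hqK i)
    have h2 : eLpNorm (fun u => fool d T h (M * M) (coef T h q) A' u -
        D (fun i => fool d T h (M * M) (coef T h q) A' (p i)) u) 2 ρ ≤ S :=
      le_iSup₂_of_le (fool d T h (M * M) (coef T h q) A') (hmem A' hA') le_rfl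
    rwa [h1] at h2
  have h1 := hle A (abs_of_nonneg hA0)
  have h2 := hle (-A) (by rw [abs_neg, abs_of_nonneg hA0])
  have hmeas : ∀ A', AEStronglyMeasurable
      (fun u => fool d T h (M * M) (coef T h q) A' u - D 0 u) ρ := fun A' =>
    stronglyMeasurable_fool.aestronglyMeasurable.sub (Lp.aestronglyMeasurable (D 0))
  have h3 := eLpNorm_sub_le (p := 2) (hmeas A) (hmeas (-A)) (by norm_num)
  have h4 : ((fun u => fool d T h (M * M) (coef T h q) A u - D 0 u) -
      fun u => fool d T h (M * M) (coef T h q) (-A) u - D 0 u) =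
      fool d T h (M * M) (coef T h q) (2 * A) := by
    funext u
    simp only [Pi.sub_apply, fool]
    rw [sub_sub_sub_cancel_right, ← sub_smul]
    congr 1
    ring
  rw [h4] at h3
  have h5 := eLpNorm_fool_ge (A := 2 * A) q hC hρ hsupp hlaw hT hK hh0 hN hMM hNn hη hqK
  have h6 : ENNReal.ofReal (|2 * A| * η / 2) = 2 * ENNReal.ofReal (A * η / 2) := by
    have e : |2 * A| * η / 2 = 2 * (A * η / 2) := by
      rw [abs_of_nonneg (by positivity)]; ring
    rw [e, ENNReal.ofReal_mul (by norm_num)]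
    norm_num
  rw [h6] at h5
  have h7 : 2 * ENNReal.ofReal (A * η / 2) ≤ 2 * S := by
    calc _ ≤ _ := h5
      _ ≤ _ := h3
      _ ≤ S + S := add_le_add h1 h2
      _ = 2 * S := (two_mul _).symm
  exact (ENNReal.mul_le_mul_iff_right (by norm_num) (by norm_num)).1 h7

theorem betaStar_le {d : ℕ} {K : Set (L2 d)} {ρ : Measure (L2 d)} (hA : Admissible K ρ)
    (hlaw : MeanLawBounded ρ) {α : ℝ} (hα : 0 < α) :
    betaStar K ρ (targetClass K α) ≤ ENNReal.ofReal (α / 2) := by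
  obtain ⟨C0, hC0⟩ := hlaw
  -- enlarge the constant
  set C : ℝ := max C0 1 with hC
  have hC1 : 1 ≤ C := le_max_right _ _
  have hlaw' : ∀ a r : ℝ, 0 < r → ρ {u | |mean u - a| ≤ r} ≤ ENNReal.ofReal (C * r) :=
    fun a r hr => (hC0 a r hr).trans (ENNReal.ofReal_le_ofReal
      (mul_le_mul_of_nonneg_right (le_max_left _ _) hr.le))
  obtain ⟨R, hR⟩ := hA.compact.isBounded.exists_norm_le
  set T : ℝ := |R| + 1 with hT
  have hT1 : 1 ≤ T := by rw [hT]; linarith [abs_nonneg R]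
  have hK : ∀ u ∈ K, |mean u| < T := fun u hu => by
    have := abs_mean_le u
    have := hR u hu
    have := le_abs_self R
    rw [hT]; linarith
  set η : ℝ := 1 / (8 * C * T) with hη
  have hη0 : 0 < η := by rw [hη]; positivity
  set A : ℕ := ⌈4 * C * T⌉₊ with hAdef
  have hA1 : 4 * C * T ≤ A := Nat.le_ceil _
  have hCT : 1 ≤ C * T := by nlinarith
  have hApos : (1 : ℝ) ≤ A := by nlinarith
  -- the bound for every n ≥ 1
  have hbound : ∀ n : ℕ, 1 ≤ n →
      ENNReal.ofReal ((10 * A : ℝ) ^ (-α) * η / 2 * (n : ℝ) ^ (-(α / 2))) ≤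
        samplingWidth K ρ (targetClass K α) n := by
    intro n hn
    have hs1 : 1 ≤ Nat.sqrt n := Nat.sqrt_pos.2 hn
    set M : ℕ := A * (Nat.sqrt n + 1) with hM
    have hsr : (1 : ℝ) ≤ (Nat.sqrt n : ℝ) := by exact_mod_cast hs1
    have hMr : (M : ℝ) = A * ((Nat.sqrt n : ℝ) + 1) := by rw [hM]; push_cast; ring
    have hMA : (A : ℝ) ≤ M := by rw [hMr]; nlinarith
    have hM1 : 1 ≤ M := by
      have : (1 : ℝ) ≤ M := hApos.trans hMA
      exact_mod_cast this
    have hTM : 2 * T ≤ M := by nlinarith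
    have hnlt : (n : ℝ) ≤ ((Nat.sqrt n : ℝ) + 1) ^ 2 := by
      have := (Nat.lt_succ_sqrt' n).le
      exact_mod_cast this
    have hNn : 4 * n * C * T ≤ ((M * M : ℕ) : ℝ) := by
      have e : ((M * M : ℕ) : ℝ) = A * (A * ((Nat.sqrt n : ℝ) + 1) ^ 2) := by
        push_cast
        rw [hMr]; ring
      rw [e]
      have h1 : (n : ℝ) ≤ A * ((Nat.sqrt n : ℝ) + 1) ^ 2 := by nlinarith
      calc 4 * n * C * T = (4 * C * T) * n := by ring
        _ ≤ A * n := mul_le_mul_of_nonneg_right hA1 (by positivity)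
        _ ≤ A * (A * ((Nat.sqrt n : ℝ) + 1) ^ 2) := mul_le_mul_of_nonneg_left h1 (by positivity)
    refine le_trans ?_ (samplingWidth_ge (m := 3 * M + 2) hα hC1 hA.prob hA.supp hlaw' hT1 hK hM1
      hTM hNn hη rfl)
    refine ENNReal.ofReal_le_ofReal ?_
    have hnr : (0 : ℝ) < n := by exact_mod_cast hn
    have hsq : (Nat.sqrt n : ℝ) ≤ (n : ℝ) ^ (1 / 2 : ℝ) := by
      rw [← Real.sqrt_eq_rpow]
      exact Real.nat_sqrt_le_real_sqrt
    have hm : (((3 * M + 2 : ℕ)) : ℝ) ≤ (10 * A : ℝ) * (n : ℝ) ^ (1 / 2 : ℝ) := by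
      have h1 : (((3 * M + 2 : ℕ)) : ℝ) ≤ 5 * M := by
        have : (1 : ℝ) ≤ M := hApos.trans hMA
        push_cast; linarith
      calc (((3 * M + 2 : ℕ)) : ℝ) ≤ 5 * M := h1
        _ ≤ 10 * A * (Nat.sqrt n : ℝ) := by rw [hMr]; nlinarith
        _ ≤ _ := mul_le_mul_of_nonneg_left hsq (by positivity)
    have hm0 : (0 : ℝ) < ((3 * M + 2 : ℕ) : ℝ) := by positivity
    have h2 : ((10 * A : ℝ) * (n : ℝ) ^ (1 / 2 : ℝ)) ^ (-α) ≤ (((3 * M + 2 : ℕ)) : ℝ) ^ (-α) :=
      Real.rpow_le_rpow_of_nonpos hm0 hm (by linarith)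
    have h3 : ((10 * A : ℝ) * (n : ℝ) ^ (1 / 2 : ℝ)) ^ (-α) =
        (10 * A : ℝ) ^ (-α) * (n : ℝ) ^ (-(α / 2)) := by
      rw [Real.mul_rpow (by positivity) (by positivity), ← Real.rpow_mul hnr.le]
      congr 2
      ring
    rw [h3] at h2
    calc (10 * A : ℝ) ^ (-α) * η / 2 * (n : ℝ) ^ (-(α / 2))
        = (10 * A : ℝ) ^ (-α) * (n : ℝ) ^ (-(α / 2)) * (η / 2) := by ring
      _ ≤ (((3 * M + 2 : ℕ)) : ℝ) ^ (-α) * (η / 2) := mul_le_mul_of_nonneg_right h2 (by positivity)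
      _ = _ := by ring
  set c0 : ℝ := (10 * A : ℝ) ^ (-α) * η / 2 with hc0
  have hc0pos : 0 < c0 := by
    have : 0 < (10 * A : ℝ) ^ (-α) := Real.rpow_pos_of_pos (by positivity) _
    positivity
  refine iSup₂_le fun β hβ => ?_
  obtain ⟨B, hB⟩ := hβ
  by_contra hcon
  push Not at hcon
  have hβα : α / 2 < (β : ℝ) := by
    have h1 : ENNReal.ofReal (α / 2) < ENNReal.ofReal (β : ℝ) := by
      rwa [ENNReal.ofReal_coe_nnreal]
    exact (ENNReal.ofReal_lt_ofReal_iff (by
      by_contra h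
      push Not at h
      rw [ENNReal.ofReal_of_nonpos h] at h1
      exact not_lt_bot h1)).1 h1
  have hreal : ∀ n : ℕ, 1 ≤ n → c0 * (n : ℝ) ^ ((β : ℝ) - α / 2) ≤ (B : ℝ) := by
    intro n hn
    have hnr : (0 : ℝ) < n := by exact_mod_cast hn
    have h1 : (n : ℝ≥0∞) ^ (β : ℝ) = ENNReal.ofReal ((n : ℝ) ^ (β : ℝ)) := by
      rw [← ENNReal.ofReal_rpow_of_pos hnr, ENNReal.ofReal_natCast]
    have h2 : ENNReal.ofReal ((n : ℝ) ^ (β : ℝ)) *
        ENNReal.ofReal (c0 * (n : ℝ) ^ (-(α / 2))) ≤ B := by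
      rw [← h1]
      exact (mul_le_mul_right (hbound n hn) _).trans (hB n)
    rw [← ENNReal.ofReal_mul (by positivity)] at h2
    have h3 : (n : ℝ) ^ (β : ℝ) * (c0 * (n : ℝ) ^ (-(α / 2))) =
        c0 * (n : ℝ) ^ ((β : ℝ) - α / 2) := by
      rw [sub_eq_add_neg, Real.rpow_add hnr]; ring
    rw [h3] at h2
    have h4 := ENNReal.toReal_mono ENNReal.coe_ne_top h2
    rw [ENNReal.toReal_ofReal (by positivity)] at h4
    simpa using h4
  have htend : Filter.Tendsto (fun n : ℕ => c0 * (n : ℝ) ^ ((β : ℝ) - α / 2)) Filter.atTop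
      Filter.atTop :=
    ((tendsto_rpow_atTop (by linarith)).comp tendsto_natCast_atTop_atTop).const_mul_atTop hc0pos
  obtain ⟨n, hn1, hn2⟩ := ((htend.eventually_gt_atTop (B : ℝ)).and
    (Filter.eventually_ge_atTop 1)).exists
  exact absurd (hreal n hn2) (not_le.2 hn1)

end Pool.Agent.FNO
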