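import Pool.Agent.FNO.Defs

set_option autoImplicit false

open MeasureTheory
open scoped ENNReal NNReal InnerProductSpace

namespace Pool.Agent.FNO

/-- Renaming the channels. -/
noncomputable def Params.reindex {d : ℕ} {ι ι' : Type} (θ : Params d ι) (e : ι' ≃ ι) : Params d ι' where
  L := θ.L
  κ := θ.κ
  Ru := fun c => θ.Ru (e c)
  Rx := fun c => θ.Rx (e c)
  r := fun c => θ.r (e c)
  Q := fun c => θ.Q (e c)
  q := θ.q
  W := fun l c c' => θ.W l (e c) (e c')
  b := fun l c => θ.b l (e c)
  P := fun l k c c' => θ.P l k (e c) (e c')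
  P_supp := fun l k hk => by
    funext c c'; rw [θ.P_supp l k hk]; rfl
  P_conj := fun l k c c' => θ.P_conj l k (e c) (e c')

lemma hidden_reindex {d : ℕ} {ι ι' : Type} [Fintype ι] [Fintype ι'] (θ : Params d ι) (e : ι' ≃ ι)
    (u : (Fin d → ℝ) → ℝ) (l : ℕ) (x : Fin d → ℝ) (c : ι') :
    hidden (θ.reindex e) u l x c = hidden θ u l x (e c) := by
  induction l generalizing x c with
  | zero => rfl
  | succ l ih =>
    simp only [hidden, ih]
    have h1 : ∑ c', (θ.reindex e).W l c c' * hidden θ u l x (e c') =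
        ∑ c', θ.W l (e c) c' * hidden θ u l x c' :=
      Equiv.sum_comp e (fun c' => θ.W l (e c) c' * hidden θ u l x c')
    have h2 : ∀ k, ∑ c', (θ.reindex e).P l k c c' *
        fourierCoeffCube (fun y => hidden θ u l y (e c')) k =
        ∑ c', θ.P l k (e c) c' * fourierCoeffCube (fun y => hidden θ u l y c') k := fun k =>
      Equiv.sum_comp e (fun c' => θ.P l k (e c) c' * fourierCoeffCube (fun y => hidden θ u l y c') k)
    rw [h1]
    simp only [h2]
    rfl

lemma output_reindex {d : ℕ} {ι ι' : Type} [Fintype ι] [Fintype ι'] (θ : Params d ι) (e : ι' ≃ ι)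
    (u : (Fin d → ℝ) → ℝ) (x : Fin d → ℝ) :
    output (θ.reindex e) u x = output θ u x := by
  simp only [output, hidden_reindex]
  exact congrArg (· + θ.q) (Equiv.sum_comp e (fun c => θ.Q c * hidden θ u θ.L x c))

lemma Params.Bounded.reindex {d : ℕ} {ι ι' : Type} {θ : Params d ι} {B : ℝ} (h : θ.Bounded B)
    (e : ι' ≃ ι) : (θ.reindex e).Bounded B where
  Ru := fun c => h.Ru (e c)
  Rx := fun c i => h.Rx (e c) i
  r := fun c => h.r (e c)
  Q := fun c => h.Q (e c)
  q := h.q
  W := fun l hl c c' => h.W l hl (e c) (e c')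
  b := fun l hl c => h.b l hl (e c)
  P_re := fun l hl k c c' => h.P_re l hl k (e c) (e c')
  P_im := fun l hl k c c' => h.P_im l hl k (e c) (e c')

lemma mem_NN {d m : ℕ} {ι : Type} [Fintype ι] [Nonempty ι] (θ : Params d ι) (hL : 0 < θ.L)
    (hκ : 0 < θ.κ) (hc : Fintype.card ι ≤ m) (hLm : θ.L ≤ m) (hκm : θ.κ ^ d ≤ m)
    (hB : θ.Bounded (Real.exp m)) (Ψ : L2 d → L2 d)
    (hΨ : ∀ u : L2 d, (Ψ u : (Fin d → ℝ) → ℝ) =ᵐ[cubeMeasure d] output θ u) : Ψ ∈ NN d m := by
  have e := (Fintype.equivFin ι).symm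
  refine ⟨Fintype.card ι, θ.reindex e, Fintype.card_pos, hL, hκ, hc, hLm, hκm, hB.reindex e, ?_⟩
  intro u
  refine (hΨ u).trans (Filter.Eventually.of_forall fun x => ?_)
  exact (output_reindex θ e u x).symm

lemma NN_mono {d m m' : ℕ} (h : m ≤ m') : NN d m ⊆ NN d m' := by
  rintro Ψ ⟨dc, θ, h1, h2, h3, h4, h5, h6, h7, h8⟩
  have hexp : Real.exp m ≤ Real.exp m' := Real.exp_le_exp.2 (by exact_mod_cast h)
  refine ⟨dc, θ, h1, h2, h3, h4.trans h, h5.trans h, h6.trans h, ?_, h8⟩
  exact ⟨fun c => (h7.Ru c).trans hexp, fun c i => (h7.Rx c i).trans hexp,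
    fun c => (h7.r c).trans hexp, fun c => (h7.Q c).trans hexp, h7.q.trans hexp,
    fun l hl c c' => (h7.W l hl c c').trans hexp, fun l hl c => (h7.b l hl c).trans hexp,
    fun l hl k c c' => (h7.P_re l hl k c c').trans hexp,
    fun l hl k c c' => (h7.P_im l hl k c c').trans hexp⟩

lemma volume_cube (d : ℕ) : volume (cube d) = 1 := by
  rw [cube, Real.volume_pi_Ioo]
  simp

instance instProbCube (d : ℕ) : IsProbabilityMeasure (cubeMeasure d) :=
  ⟨by rw [Measure.restrict_apply_univ, volume_cube]⟩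

/-- The constant function `1` in `L²(Ω)`. -/
noncomputable def one (d : ℕ) : L2 d := Lp.const 2 (cubeMeasure d) (1 : ℝ)

lemma coeFn_one (d : ℕ) : (one d : (Fin d → ℝ) → ℝ) =ᵐ[cubeMeasure d] fun _ => 1 := by
  filter_upwards [Lp.coeFn_const (p := 2) (μ := cubeMeasure d) (1 : ℝ)] with x hx
  exact hx

lemma norm_one (d : ℕ) : ‖one d‖ = 1 := by
  rw [one, Lp.norm_const' 2 (cubeMeasure d) (1 : ℝ) (by norm_num) (by norm_num)]
  simp

lemma mean_eq_inner {d : ℕ} (u : L2 d) : mean u = ⟪one d, u⟫_ℝ := by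
  rw [L2.inner_def, mean]
  refine integral_congr_ae ?_
  filter_upwards [coeFn_one d] with x hx
  rw [hx]
  simp

lemma continuous_mean (d : ℕ) : Continuous (mean : L2 d → ℝ) := by
  have : (mean : L2 d → ℝ) = fun u => ⟪one d, u⟫_ℝ := funext mean_eq_inner
  rw [this]
  exact continuous_const.inner continuous_id

lemma abs_mean_le {d : ℕ} (u : L2 d) : |mean u| ≤ ‖u‖ := by
  rw [mean_eq_inner]
  have := abs_real_inner_le_norm (one d) u
  rwa [norm_one, one_mul] at this

lemma coeFn_smul_one (d : ℕ) (a : ℝ) :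
    ((a • one d : L2 d) : (Fin d → ℝ) → ℝ) =ᵐ[cubeMeasure d] fun _ => a := by
  filter_upwards [Lp.coeFn_smul a (one d), coeFn_one d] with x h1 h2
  rw [h1, Pi.smul_apply, h2, smul_eq_mul, mul_one]

lemma zero_mem_NN {d m : ℕ} (hm : 1 ≤ m) : (0 : L2 d → L2 d) ∈ NN d m := by
  have h0 : (0 : ℝ) ≤ Real.exp m := (Real.exp_pos _).le
  let θ : Params d Unit :=
    { L := 1, κ := 1, Ru := 0, Rx := 0, r := 0, Q := 0, q := 0, W := 0, b := 0, P := 0,
      P_supp := fun _ _ _ => rfl
      P_conj := fun _ _ _ _ => by simp }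
  refine mem_NN (ι := Unit) θ (by simp [θ]) (by simp [θ]) (by simpa using hm) (by simpa [θ] using hm)
    (by simpa [θ] using hm) ?_ _ ?_
  · constructor <;> intros <;> simpa [θ] using h0
  · intro u
    filter_upwards [Lp.coeFn_zero ℝ 2 (cubeMeasure d)] with x hx
    rw [Pi.zero_apply, hx]
    simp [output, θ]

/-- The channels of the network. -/
abbrev Chan (M : ℕ) : Type := Bool ⊕ (Fin M × Fin 3)

/-- second difference coefficients -/
def eps (i : Fin 3) : ℝ := if i = 1 then -2 else 1

/-- The network: `A` times the sum over the groups `l < M` and `j < M` of the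
`co l j * (ReLU (t - s l j 0) - 2 ReLU (t - s l j 1) + ReLU (t - s l j 2))`. -/
noncomputable def net (d M : ℕ) (T A : ℝ) (s : ℕ → Fin M → Fin 3 → ℝ) (co : ℕ → Fin M → ℝ) :
    Params d (Chan M) where
  L := M + 1
  κ := 1
  Ru := fun _ => 1
  Rx := 0
  r := 0
  Q := fun c => match c with
    | Sum.inl true => A
    | _ => 0
  q := 0
  W := fun l c c' => match l, c, c' with
    | 0, _, _ => 0
    | _ + 1, Sum.inl false, Sum.inl false => 1
    | _ + 1, Sum.inl true, Sum.inl true => 1
    | l + 1, Sum.inl true, Sum.inr (j, i) => co l j * eps i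
    | _ + 1, Sum.inr _, Sum.inl false => 1
    | _, _, _ => 0
  b := fun l c => match l, c with
    | 0, Sum.inl false => T
    | 0, Sum.inr (j, i) => - s 0 j i
    | l + 1, Sum.inr (j, i) => -(T + s (l + 1) j i)
    | _, _ => 0
  P := fun l k c c' => if l = 0 ∧ k = 0 then
      (match c, c' with
      | Sum.inl false, Sum.inl false => 1
      | Sum.inr _, Sum.inl false => 1
      | _, _ => 0) else 0
  P_supp := fun l k hk => by
    have : k ≠ 0 := by
      rintro rfl
      apply hk
      simp [freqBox]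
    funext c c'
    simp [this]
  P_conj := fun l k c c' => by
    by_cases h : l = 0 ∧ k = 0
    · have h' : l = 0 ∧ -k = 0 := ⟨h.1, by simp [h.2]⟩
      rw [if_pos h, if_pos h']
      rcases c with (_ | _) | _ <;> rcases c' with (_ | _) | _ <;> simp
    · have h' : ¬ (l = 0 ∧ -k = 0) := fun hh => h ⟨hh.1, by simpa using hh.2⟩
      rw [if_neg h, if_neg h']
      simp

lemma freqBox_one (d : ℕ) : freqBox d 1 = {0} := by
  ext k
  simp only [freqBox, Fintype.mem_piFinset, Finset.mem_Ioo, Finset.mem_singleton]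
  constructor
  · intro h
    funext i
    have := h i
    simp only [Pi.zero_apply]
    push_cast at this
    omega
  · rintro rfl i
    simp

lemma fourierCoeffCube_zero {d : ℕ} (v : (Fin d → ℝ) → ℝ) :
    fourierCoeffCube v 0 = ((∫ y, v y ∂(cubeMeasure d) : ℝ) : ℂ) := by
  rw [fourierCoeffCube, ← integral_complex_ofReal]
  refine integral_congr_ae (Filter.Eventually.of_forall fun y => ?_)
  simp

/-- Scalar state after layer `l + 1`. -/
noncomputable def state (M : ℕ) (T : ℝ) (s : ℕ → Fin M → Fin 3 → ℝ) (co : ℕ → Fin M → ℝ) (t : ℝ)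
    (l : ℕ) : Chan M → ℝ
  | Sum.inl false => t + T
  | Sum.inl true => ∑ l' ∈ Finset.range l, ∑ j, co l' j * ∑ i, eps i * max 0 (t - s l' j i)
  | Sum.inr (j, i) => max 0 (t - s l j i)

lemma hidden_net {d M : ℕ} {T A : ℝ} {s : ℕ → Fin M → Fin 3 → ℝ} {co : ℕ → Fin M → ℝ}
    (u : (Fin d → ℝ) → ℝ) (t : ℝ) (ht : ∫ y, u y ∂(cubeMeasure d) = t) (htT : -T ≤ t)
    (hpos : ∀ l, 0 ≤ ∑ l' ∈ Finset.range l, ∑ j, co l' j * ∑ i, eps i * max 0 (t - s l' j i))
    (l : ℕ) (x : Fin d → ℝ) (c : Chan M) :
    hidden (net d M T A s co) u (l + 1) x c = state M T s co t l c := by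
  induction l generalizing x c with
  | zero =>
    rw [hidden]
    beta_reduce
    have hκ : (net d M T A s co).κ = 1 := rfl
    rw [hκ, freqBox_one, Finset.sum_singleton]
    have hexp : Complex.exp (2 * Real.pi * Complex.I * ∑ i, (((0 : Fin d → ℤ) i : ℤ) : ℂ) * (x i : ℂ))
        = 1 := by simp
    rw [hexp, mul_one]
    have h0 : ∀ c', fourierCoeffCube (fun y => hidden (net d M T A s co) u 0 y c') 0 = (t : ℂ) := by
      intro c'
      rw [fourierCoeffCube_zero, ← ht]
      congr 2
      funext y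
      simp [hidden, net]
    simp only [h0]
    have hW : ∑ c', (net d M T A s co).W 0 c c' * hidden (net d M T A s co) u 0 x c' = 0 := by
      refine Finset.sum_eq_zero fun c' _ => ?_
      simp [net]
    rw [hW, zero_add, ← Finset.sum_mul, Fintype.sum_sum_type]
    rcases c with (_ | _) | ⟨j, i⟩
    · simp [net, state]
      rw [max_eq_right (by linarith)]
      ring
    · simp [net, state]
    · simp [net, state]
      rw [neg_add_eq_sub]
  | succ l ih =>
    rw [hidden]
    beta_reduce
    have hP : (∑ k ∈ freqBox d (net d M T A s co).κ, (∑ c', (net d M T A s co).P (l + 1) k c c' *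
        fourierCoeffCube (fun y => hidden (net d M T A s co) u (l + 1) y c') k) *
          Complex.exp (2 * Real.pi * Complex.I * ∑ i, (k i : ℂ) * (x i : ℂ))) = 0 := by
      refine Finset.sum_eq_zero fun k _ => ?_
      have : ∑ c', (net d M T A s co).P (l + 1) k c c' *
          fourierCoeffCube (fun y => hidden (net d M T A s co) u (l + 1) y c') k = 0 := by
        refine Finset.sum_eq_zero fun c' _ => ?_
        simp [net]
      rw [this, zero_mul]
    rw [hP, Complex.zero_re, add_zero]
    simp only [ih]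
    rw [Fintype.sum_sum_type, Fintype.sum_bool]
    rcases c with (_ | _) | ⟨j, i⟩
    · simp [net, state]
      linarith
    · have h1 : ∑ x : Fin M × Fin 3, (net d M T A s co).W (l + 1) (Sum.inl true) (Sum.inr x) *
          state M T s co t l (Sum.inr x) =
          ∑ j, co l j * ∑ i, eps i * max 0 (t - s l j i) := by
        rw [Fintype.sum_prod_type]
        refine Finset.sum_congr rfl fun j _ => ?_
        rw [Finset.mul_sum]
        refine Finset.sum_congr rfl fun i _ => ?_
        simp [net, state, mul_assoc]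
      rw [h1]
      have h2 : state M T s co t (l + 1) (Sum.inl true) = state M T s co t l (Sum.inl true) +
          ∑ j, co l j * ∑ i, eps i * max 0 (t - s l j i) := by
        simp only [state]
        rw [Finset.sum_range_succ]
      have h3 := hpos (l + 1)
      have h4 : state M T s co t (l + 1) (Sum.inl true) = ∑ l' ∈ Finset.range (l + 1), ∑ j,
        co l' j * ∑ i, eps i * max 0 (t - s l' j i) := rfl
      rw [← h4, h2] at h3
      have h5 : (net d M T A s co).W (l + 1) (Sum.inl true) (Sum.inl true) = 1 := rfl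
      have h6 : (net d M T A s co).W (l + 1) (Sum.inl true) (Sum.inl false) = 0 := rfl
      have h7 : (net d M T A s co).b (l + 1) (Sum.inl true) = 0 := rfl
      rw [h5, h6, h7, h2]
      rw [max_eq_right (by linarith)]
      ring
    · simp [net, state]
      congr 1
      ring

lemma output_net {d M : ℕ} {T A : ℝ} {s : ℕ → Fin M → Fin 3 → ℝ} {co : ℕ → Fin M → ℝ}
    (u : (Fin d → ℝ) → ℝ) (t : ℝ) (ht : ∫ y, u y ∂(cubeMeasure d) = t) (htT : -T ≤ t)
    (hpos : ∀ l, 0 ≤ ∑ l' ∈ Finset.range l, ∑ j, co l' j * ∑ i, eps i * max 0 (t - s l' j i))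
    (x : Fin d → ℝ) :
    output (net d M T A s co) u x =
      A * ∑ l' ∈ Finset.range M, ∑ j, co l' j * ∑ i, eps i * max 0 (t - s l' j i) := by
  rw [output]
  have hL : (net d M T A s co).L = M + 1 := rfl
  rw [hL]
  simp only [hidden_net u t ht htT hpos]
  rw [Fintype.sum_sum_type, Fintype.sum_bool]
  simp [net, state]

end Pool.Agent.FNO
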