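import Pool.Agent.FNO.Net

set_option autoImplicit false

open MeasureTheory
open scoped ENNReal NNReal InnerProductSpace

namespace Pool.Agent.FNO

lemma second_difference {a h t : ℝ} (hh : 0 < h) :
    max 0 (t - a) - 2 * max 0 (t - (a + h)) + max 0 (t - (a + 2 * h)) =
      max 0 (h - |t - (a + h)|) := by
  rcases le_total t a with h1 | h1
  · rw [max_eq_left (by linarith : t - a ≤ 0), max_eq_left (by linarith : t - (a + h) ≤ 0),
      max_eq_left (by linarith : t - (a + 2 * h) ≤ 0), abs_of_nonpos (by linarith),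
      max_eq_left (by linarith)]
    ring
  · rcases le_total t (a + h) with h2 | h2
    · rw [max_eq_right (by linarith : 0 ≤ t - a), max_eq_left (by linarith : t - (a + h) ≤ 0),
        max_eq_left (by linarith : t - (a + 2 * h) ≤ 0), abs_of_nonpos (by linarith),
        max_eq_right (by linarith)]
      ring
    · rcases le_total t (a + 2 * h) with h3 | h3
      · rw [max_eq_right (by linarith : 0 ≤ t - a), max_eq_right (by linarith : 0 ≤ t - (a + h)),
          max_eq_left (by linarith : t - (a + 2 * h) ≤ 0), abs_of_nonneg (by linarith),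
          max_eq_right (by linarith)]
        ring
      · rw [max_eq_right (by linarith : 0 ≤ t - a), max_eq_right (by linarith : 0 ≤ t - (a + h)),
          max_eq_right (by linarith : 0 ≤ t - (a + 2 * h)), abs_of_nonneg (by linarith),
          max_eq_left (by linarith)]
        ring

/-- The index of the cell of `t`. -/
noncomputable def cell (T h t : ℝ) : ℕ := ⌊(t + T) / (2 * h)⌋₊

/-- tent of height one over the `k`-th cell -/
noncomputable def tent (T h : ℝ) (k : ℕ) (t : ℝ) : ℝ :=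
  h⁻¹ * max 0 (h - |t - (-T + 2 * h * k + h)|)

lemma tent_nonneg {T h : ℝ} (hh : 0 < h) (k : ℕ) (t : ℝ) : 0 ≤ tent T h k t :=
  mul_nonneg (inv_nonneg.2 hh.le) (le_max_left _ _)

lemma tent_le_one {T h : ℝ} (hh : 0 < h) (k : ℕ) (t : ℝ) : tent T h k t ≤ 1 := by
  have h1 : max 0 (h - |t - (-T + 2 * h * k + h)|) ≤ h := by
    rw [max_le_iff]
    exact ⟨hh.le, by linarith [abs_nonneg (t - (-T + 2 * h * k + h))]⟩
  calc tent T h k t ≤ h⁻¹ * h := mul_le_mul_of_nonneg_left h1 (inv_nonneg.2 hh.le)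
    _ = 1 := inv_mul_cancel₀ hh.ne'

lemma cell_bounds {T h t : ℝ} (hh : 0 < h) (ht : -T ≤ t) :
    -T + 2 * h * (cell T h t : ℝ) ≤ t ∧ t < -T + 2 * h * (cell T h t : ℝ) + 2 * h := by
  have h0 : 0 ≤ (t + T) / (2 * h) := div_nonneg (by linarith) (by linarith)
  have h1 := Nat.floor_le h0
  have h2 := Nat.lt_floor_add_one ((t + T) / (2 * h))
  rw [le_div_iff₀ (by linarith)] at h1
  rw [div_lt_iff₀ (by linarith)] at h2
  unfold cell
  constructor <;> nlinarith

lemma tent_eq_zero {T h t : ℝ} (hh : 0 < h) (ht : -T ≤ t) {k : ℕ} (hk : k ≠ cell T h t) :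
    tent T h k t = 0 := by
  obtain ⟨h1, h2⟩ := cell_bounds hh ht
  have h3 : max 0 (h - |t - (-T + 2 * h * k + h)|) = 0 := by
    rw [max_eq_left]
    rcases lt_or_gt_of_ne hk with h4 | h4
    · have h5 : (k : ℝ) + 1 ≤ (cell T h t : ℝ) := by exact_mod_cast h4
      have h6 : h ≤ t - (-T + 2 * h * k + h) := by nlinarith
      linarith [le_abs_self (t - (-T + 2 * h * k + h))]
    · have h5 : (cell T h t : ℝ) + 1 ≤ (k : ℝ) := by exact_mod_cast h4
      have h6 : t - (-T + 2 * h * k + h) ≤ -h := by nlinarith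
      linarith [neg_abs_le (t - (-T + 2 * h * k + h))]
  rw [tent, h3, mul_zero]

/-- sum of the tents with coefficients `c` -/
noncomputable def G (T h : ℝ) (N : ℕ) (c : ℕ → ℝ) (t : ℝ) : ℝ :=
  ∑ k ∈ Finset.range N, c k * tent T h k t

lemma G_eq {T h : ℝ} {N : ℕ} {c : ℕ → ℝ} {t : ℝ} (hh : 0 < h) (ht : -T ≤ t)
    (hN : cell T h t < N) : G T h N c t = c (cell T h t) * tent T h (cell T h t) t := by
  rw [G, Finset.sum_eq_single (cell T h t)]
  · intro k _ hk
    rw [tent_eq_zero hh ht hk, mul_zero]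
  · intro hk
    exact absurd (Finset.mem_range.2 hN) hk

lemma G_nonneg {T h : ℝ} {N : ℕ} {c : ℕ → ℝ} (hh : 0 < h) (hc : ∀ k, 0 ≤ c k) (t : ℝ) :
    0 ≤ G T h N c t :=
  Finset.sum_nonneg fun k _ => mul_nonneg (hc k) (tent_nonneg hh k t)

lemma cell_lt {T h : ℝ} {N : ℕ} (hh : 0 < h) (hN : N * h = T) {t : ℝ} (ht : -T ≤ t) (htT : t < T) :
    cell T h t < N := by
  obtain ⟨h1, -⟩ := cell_bounds hh ht
  by_contra hcon
  push Not at hcon
  have h2 : (N : ℝ) ≤ (cell T h t : ℝ) := by exact_mod_cast hcon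
  nlinarith

lemma G_le_one {T h : ℝ} {N : ℕ} {c : ℕ → ℝ} (hh : 0 < h) (hN : N * h = T)
    (hc : ∀ k, c k ≤ 1) {t : ℝ} (ht : -T ≤ t) (htT : t < T) :
    G T h N c t ≤ 1 := by
  rw [G_eq hh ht (cell_lt hh hN ht htT)]
  calc c (cell T h t) * tent T h (cell T h t) t ≤ 1 * tent T h (cell T h t) t :=
        mul_le_mul_of_nonneg_right (hc _) (tent_nonneg hh _ _)
    _ ≤ 1 := by rw [one_mul]; exact tent_le_one hh _ _

lemma continuous_tent (T h : ℝ) (k : ℕ) : Continuous (tent T h k) := by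
  unfold tent
  fun_prop

lemma continuous_G (T h : ℝ) (N : ℕ) (c : ℕ → ℝ) : Continuous (G T h N c) := by
  unfold G
  exact continuous_finsetSum _ fun k _ => continuous_const.mul (continuous_tent T h k)

/-- low level sets -/
lemma G_low {T h : ℝ} {N : ℕ} {c : ℕ → ℝ} {η : ℝ} (hh : 0 < h) (hN : N * h = T)
    {t : ℝ} (ht : -T ≤ t) (htT : t < T) (hlow : G T h N c t < η)
    (hc : c (cell T h t) = 1) : ∃ k ∈ Finset.range (N + 1), |t - (-T + 2 * h * k)| ≤ η * h := by
  obtain ⟨h1, h2⟩ := cell_bounds hh ht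
  have hlt := cell_lt hh hN ht htT
  rw [G_eq hh ht hlt, hc, one_mul, tent, inv_mul_lt_iff₀ hh] at hlow
  have h3 := (le_max_right 0 (h - |t - (-T + 2 * h * (cell T h t : ℝ) + h)|)).trans_lt hlow
  rcases le_total t (-T + 2 * h * (cell T h t : ℝ) + h) with h4 | h4
  · refine ⟨cell T h t, Finset.mem_range.2 (by omega), ?_⟩
    rw [abs_of_nonpos (by linarith)] at h3
    rw [abs_of_nonneg (by linarith)]
    linarith
  · refine ⟨cell T h t + 1, Finset.mem_range.2 (by omega), ?_⟩
    rw [abs_of_nonneg (by linarith)] at h3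
    push_cast
    rw [abs_of_nonpos (by linarith)]
    linarith

lemma sum_range_mul (F : ℕ → ℝ) (M l : ℕ) :
    ∑ l' ∈ Finset.range l, ∑ j : Fin M, F (l' * M + j) = ∑ k ∈ Finset.range (l * M), F k := by
  induction l with
  | zero => simp
  | succ l ih =>
    rw [Finset.sum_range_succ, ih, Nat.succ_mul, Finset.sum_range_add]
    congr 1
    exact Fin.sum_univ_eq_sum_range (fun j => F (l * M + j)) M

/-- knots of the network -/
noncomputable def knot (T h : ℝ) (M : ℕ) (l : ℕ) (j : Fin M) (i : Fin 3) : ℝ :=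
  -T + 2 * h * ((l * M + j : ℕ) : ℝ) + i * h

lemma sum_eps {T h : ℝ} (hh : 0 < h) {M : ℕ} (l : ℕ) (j : Fin M) (t : ℝ) :
    ∑ i, eps i * max 0 (t - knot T h M l j i) =
      h * tent T h (l * M + j) t := by
  rw [Fin.sum_univ_three]
  have e := second_difference (a := -T + 2 * h * ((l * M + j : ℕ) : ℝ)) (t := t) hh
  rw [tent, ← mul_assoc, mul_inv_cancel₀ hh.ne', one_mul, ← e]
  have e0 : eps 0 = 1 := if_neg (by decide)
  have e1 : eps 1 = -2 := if_pos rfl
  have e2 : eps 2 = 1 := if_neg (by decide)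
  have k0 : knot T h M l j 0 = -T + 2 * h * ((l * M + j : ℕ) : ℝ) := by
    simp [knot]
  have k1 : knot T h M l j 1 = -T + 2 * h * ((l * M + j : ℕ) : ℝ) + h := by
    simp [knot]
  have k2 : knot T h M l j 2 = -T + 2 * h * ((l * M + j : ℕ) : ℝ) + 2 * h := by
    simp [knot]
  rw [e0, e1, e2, k0, k1, k2]
  ring

lemma net_sum {T h : ℝ} (hh : 0 < h) {M : ℕ} (c : ℕ → ℝ) (l : ℕ) (t : ℝ) :
    ∑ l' ∈ Finset.range l, ∑ j : Fin M, (c (l' * M + j) / h) *
      ∑ i, eps i * max 0 (t - knot T h M l' j i) = G T h (l * M) c t := by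
  rw [G, ← sum_range_mul (fun k => c k * tent T h k t) M l]
  refine Finset.sum_congr rfl fun l' _ => Finset.sum_congr rfl fun j _ => ?_
  rw [sum_eps hh]
  field_simp

end Pool.Agent.FNO
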